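import Mathlib

/-! The arithmetic of the comparison of valuations. -/

set_option autoImplicit false

namespace Pool.Agent.T2H40.MI

theorem comb3 {A B C X Y Z a b c : ℝ} (ha : 0 < a) (hb : 0 ≤ b) (hc : 0 ≤ c) (hA : A < X)
    (hB : B ≤ Y) (hC : C ≤ Z) : a * A + b * B + c * C < a * X + b * Y + c * Z :=
  add_lt_add_of_lt_of_le (add_lt_add_of_lt_of_le (mul_lt_mul_of_pos_left hA ha)
    (mul_le_mul_of_nonneg_left hB hb)) (mul_le_mul_of_nonneg_left hC hc)

variable {c i j k e s t : ℝ}

theorem arA1 (hi : 0 < i) (hj : 0 < j) (he : 0 ≤ e) (hs : 0 < s) (ht : 0 < t)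
    (E : c * 4 < i + j + k) (L0 : c * 10 < 7 * i + j + k) (L1 : c * 8 < i + 5 * j + k)
    (h12 : c * 10 < 3 * i + 5 * j + k) :
    (t ≤ 4 * e ∧ s + t ≤ 6 * e → c * (4 * e + s + t) < (e + s) * i + (e + t) * j + e * k) ∧
    (4 * e ≤ t ∧ s ≤ 2 * e → c * (8 * e + s) < (e + s) * i + (e + t) * j + e * k) ∧
    (¬ (t ≤ 4 * e ∧ s + t ≤ 6 * e) → ¬ (4 * e ≤ t ∧ s ≤ 2 * e) →
      c * (10 * e) < (e + s) * i + (e + t) * j + e * k) := by
  refine ⟨fun h1 => ?_, fun h3 => ?_, fun h1 h3 => ?_⟩
  · by_cases h2 : s / 2 ≤ t / 4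
    · have := comb3 (a := s / 2) (b := t / 4 - s / 2) (c := e - t / 4) (by linarith)
        (by linarith) (by linarith [h1.1]) h12 L1.le E.le
      linarith
    · have := comb3 (a := t / 4) (b := (s - t / 2) / 6) (c := e - (s + t) / 6) (by linarith)
        (by linarith) (by linarith [h1.2]) h12 L0.le E.le
      linarith
  · have := comb3 (a := s / 2) (b := e - s / 2) (c := t - 4 * e) (by linarith)
        (by linarith [h3.2]) (by linarith [h3.1]) h12 L1.le hj.le
    linarith
  · by_cases h4 : 4 * e ≤ t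
    · have h5 : 2 * e < s := by
        by_contra hcon
        exact h3 ⟨h4, not_lt.1 hcon⟩
      have := comb3 (a := s - 2 * e) (b := e) (c := t - 4 * e) (by linarith)
          he (by linarith) hi h12.le hj.le
      linarith
    · have h5 : 6 * e < s + t := by
        by_contra hcon
        exact h1 ⟨(not_le.1 h4).le, not_lt.1 hcon⟩
      have := comb3 (a := t / 4) (b := e - t / 4) (c := s - 6 * e + t) (by linarith)
          (by linarith) (by linarith) h12 L0.le hi.le
      linarith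

theorem arA2 (hi : 0 < i) (hk : 0 < k) (he : 0 ≤ e) (hs : 0 < s) (ht : 0 < t)
    (E : c * 4 < i + j + k) (L0 : c * 10 < 7 * i + j + k) (L2 : c * 6 < i + j + 3 * k)
    (h13 : c * 10 < 5 * i + j + 3 * k) :
    (t ≤ 2 * e ∧ s + t ≤ 6 * e → c * (4 * e + s + t) < (e + s) * i + e * j + (e + t) * k) ∧
    (2 * e ≤ t ∧ s ≤ 4 * e → c * (6 * e + s) < (e + s) * i + e * j + (e + t) * k) ∧
    (¬ (t ≤ 2 * e ∧ s + t ≤ 6 * e) → ¬ (2 * e ≤ t ∧ s ≤ 4 * e) →
      c * (10 * e) < (e + s) * i + e * j + (e + t) * k) := by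
  refine ⟨fun h1 => ?_, fun h3 => ?_, fun h1 h3 => ?_⟩
  · by_cases h2 : s / 4 ≤ t / 2
    · have := comb3 (a := s / 4) (b := t / 2 - s / 4) (c := e - t / 2) (by linarith)
        (by linarith) (by linarith [h1.1]) h13 L2.le E.le
      linarith
    · have := comb3 (a := t / 2) (b := (s - 2 * t) / 6) (c := e - (s + t) / 6) (by linarith)
        (by linarith) (by linarith [h1.2]) h13 L0.le E.le
      linarith
  · have := comb3 (a := s / 4) (b := e - s / 4) (c := t - 2 * e) (by linarith)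
        (by linarith [h3.2]) (by linarith [h3.1]) h13 L2.le hk.le
    linarith
  · by_cases h4 : 2 * e ≤ t
    · have h5 : 4 * e < s := by
        by_contra hcon
        exact h3 ⟨h4, not_lt.1 hcon⟩
      have := comb3 (a := s - 4 * e) (b := e) (c := t - 2 * e) (by linarith)
          he (by linarith) hi h13.le hk.le
      linarith
    · have h5 : 6 * e < s + t := by
        by_contra hcon
        exact h1 ⟨(not_le.1 h4).le, not_lt.1 hcon⟩
      have := comb3 (a := t / 2) (b := e - t / 2) (c := s - 6 * e + t) (by linarith)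
          (by linarith) (by linarith) h13 L0.le hi.le
      linarith

theorem arB1 (hj : 0 < j) (hk : 0 < k) (he : 0 ≤ e) (hs : 0 < s) (ht : 0 < t)
    (E : c * 4 < i + j + k) (L1 : c * 8 < i + 5 * j + k) (L2 : c * 6 < i + j + 3 * k)
    (h23 : c * 8 < i + 3 * j + 3 * k) :
    (t ≤ 2 * e ∧ s + t ≤ 4 * e → c * (4 * e + s + t) < e * i + (e + s) * j + (e + t) * k) ∧
    (2 * e ≤ t ∧ s ≤ 2 * e → c * (6 * e + s) < e * i + (e + s) * j + (e + t) * k) ∧
    (¬ (t ≤ 2 * e ∧ s + t ≤ 4 * e) → ¬ (2 * e ≤ t ∧ s ≤ 2 * e) →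
      c * (8 * e) < e * i + (e + s) * j + (e + t) * k) := by
  refine ⟨fun h1 => ?_, fun h3 => ?_, fun h1 h3 => ?_⟩
  · by_cases h2 : s ≤ t
    · have := comb3 (a := s / 2) (b := (t - s) / 2) (c := e - t / 2) (by linarith)
        (by linarith) (by linarith [h1.1]) h23 L2.le E.le
      linarith
    · have := comb3 (a := t / 2) (b := (s - t) / 4) (c := e - (s + t) / 4) (by linarith)
        (by linarith) (by linarith [h1.2]) h23 L1.le E.le
      linarith
  · have := comb3 (a := s / 2) (b := e - s / 2) (c := t - 2 * e) (by linarith)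
        (by linarith [h3.2]) (by linarith [h3.1]) h23 L2.le hk.le
    linarith
  · by_cases h4 : 2 * e ≤ t
    · have h5 : 2 * e < s := by
        by_contra hcon
        exact h3 ⟨h4, not_lt.1 hcon⟩
      have := comb3 (a := s - 2 * e) (b := e) (c := t - 2 * e) (by linarith)
          he (by linarith) hj h23.le hk.le
      linarith
    · have h5 : 4 * e < s + t := by
        by_contra hcon
        exact h1 ⟨(not_le.1 h4).le, not_lt.1 hcon⟩
      have := comb3 (a := t / 2) (b := e - t / 2) (c := s - 4 * e + t) (by linarith)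
          (by linarith) (by linarith) h23 L1.le hj.le
      linarith

theorem arS {κ δ : ℝ} (hκ : 0 < κ) (hi : 0 < i) (hj : 0 < j) (he : 0 ≤ e) (hs : 0 < s)
    (hδ : 0 ≤ δ) (E : c * 4 < i + j + k) (L : c * (κ + 4) < (κ + 1) * i + j + k)
    (P : c < i + j) :
    (s - δ ≤ κ * e → c * (4 * e + s) < (e + s) * i + (e + δ) * j + e * k) ∧
    (¬ (s - δ ≤ κ * e) → c * ((κ + 4) * e + δ) < (e + s) * i + (e + δ) * j + e * k) := by
  refine ⟨fun h2 => ?_, fun h2 => ?_⟩
  · by_cases h1 : s ≤ δ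
    · have := comb3 (a := s) (b := e) (c := δ - s) hs he (by linarith) P E.le hj.le
      linarith
    replace h1 := not_le.1 h1
    have hP : δ * c ≤ δ * (i + j) := mul_le_mul_of_nonneg_left P.le hδ
    obtain ⟨σ, hσ⟩ : ∃ σ, σ = (s - δ) / κ := ⟨_, rfl⟩
    have h3 : s = δ + κ * σ := by
      rw [hσ]
      field_simp
      ring
    have h4 : 0 < σ := hσ ▸ div_pos (by linarith) hκ
    have h5 : σ ≤ e := by
      rw [hσ, div_le_iff₀ hκ]
      linarith
    have h6 := mul_lt_mul_of_pos_left L h4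
    have h7 := mul_le_mul_of_nonneg_left E.le (sub_nonneg.2 h5)
    rw [h3]
    nlinarith
  · have hP : δ * c ≤ δ * (i + j) := mul_le_mul_of_nonneg_left P.le hδ
    have h6 := mul_le_mul_of_nonneg_left L.le he
    have h7 := mul_pos (sub_pos.2 (not_le.1 h2)) hi
    nlinarith

theorem arP (hi : 0 < i) (hj : 0 < j) (he : 0 ≤ e) (hs : 0 < s) (ht : 0 < t)
    (E : c * 4 < i + j + k) (P : c < i + j) :
    (s ≤ t → c * (4 * e + s) < (e + s) * i + (e + t) * j + e * k) ∧
    (t ≤ s → c * (4 * e + t) < (e + s) * i + (e + t) * j + e * k) := by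
  refine ⟨fun h => ?_, fun h => ?_⟩
  · have := comb3 (a := s) (b := e) (c := t - s) hs he (by linarith) P E.le hj.le
    linarith
  · have := comb3 (a := t) (b := e) (c := s - t) ht he (by linarith) P E.le hi.le
    linarith

end Pool.Agent.T2H40.MI
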