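import Pool.Agent.T2H40.MI.Disc

/-! Changes of coordinates, and the ideals in terms of the coordinates. -/

set_option autoImplicit false

namespace Pool.Agent.T2H40.MI

open MvPolynomial

section inv

variable {M : Matrix (Fin 3) (Fin 3) ℂ}

theorem sub_inv (hM : M.det ≠ 0) (f : S) : sub M (sub M⁻¹ f) = f := by
  rw [sub_sub, Matrix.nonsing_inv_mul M (isUnit_iff_ne_zero.2 hM), sub_one]

theorem inv_sub (hM : M.det ≠ 0) (f : S) : sub M⁻¹ (sub M f) = f := by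
  rw [sub_sub, Matrix.mul_nonsing_inv M (isUnit_iff_ne_zero.2 hM), sub_one]

theorem inv_ne (hM : M.det ≠ 0) {f : S} (hf : f ≠ 0) : sub M⁻¹ f ≠ 0 := fun h =>
  hf (by rw [← sub_inv hM f, h, map_zero])

theorem det_inv_ne (hM : M.det ≠ 0) : M⁻¹.det ≠ 0 := by
  rw [Matrix.det_nonsing_inv, Ring.inverse_eq_inv']
  exact inv_ne_zero hM

theorem inv_lin (hM : M.det ≠ 0) (i : Fin 3) : sub M⁻¹ (lin (M i)) = X i := by
  rw [← sub_X, inv_sub hM]

end inv

theorem le_wv_lin {w : Fin 3 → ℕ} {n : ℕ} {r : Fin 3 → ℂ} (h : ∀ j, r j ≠ 0 → n ≤ w j) :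
    (n : ℕ∞) ≤ wv w (lin r) := by
  rw [lin]
  refine (wv w).map_le_sum fun j _ => ?_
  by_cases hj : r j = 0
  · simp [hj]
  rw [C_mul_X_eq_monomial, wv_monomial _ hj]
  refine le_trans (Nat.cast_le.2 (h j hj)) (Nat.cast_le.2 ?_)
  fin_cases j <;> simp [wt]

theorem wv_sub {w w' : Fin 3 → ℕ} {T : Matrix (Fin 3) (Fin 3) ℂ}
    (h : ∀ i j, T i j ≠ 0 → w i ≤ w' j) (f : S) : wv w f ≤ wv w' (sub T f) := by
  by_cases hf : f = 0
  · simp [hf]
  obtain ⟨m, hm, hm'⟩ := exists_le (wv w') (fun i => lin (T i)) hf (α := w)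
    (fun i => le_wv_lin (h i))
  refine le_trans ?_ hm'
  obtain ⟨n, hn, hn'⟩ := exists_wv (w := w) hf
  rw [hn']
  exact Nat.cast_le.2 (le_wv.1 hn'.ge m hm)

/-- the condition on the monomials -/
def Cond (c : ℝ) (w : Fin 3 → ℕ) (N : ℕ) (f : S) : Prop :=
  ∀ m ∈ f.support, c * N < ∑ i, (w i : ℝ) * (m i + 1)

theorem sum_wt (w : Fin 3 → ℕ) (m : Fin 3 →₀ ℕ) :
    ∑ i, (w i : ℝ) * (m i + 1) = ((wt w m + (w 0 + w 1 + w 2) : ℕ) : ℝ) := by
  rw [Fin.sum_univ_three, wt]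
  push_cast
  ring

/-- the bound -/
noncomputable def bd (c : ℝ) (w : Fin 3 → ℕ) (N : ℕ) : ℕ := ⌊c * N⌋₊ + 1 - (w 0 + w 1 + w 2)

theorem bd_le {c : ℝ} (hc : 0 ≤ c) (w : Fin 3 → ℕ) (N : ℕ) (m : Fin 3 →₀ ℕ) :
    bd c w N ≤ wt w m ↔ c * N < ∑ i, (w i : ℝ) * (m i + 1) := by
  rw [sum_wt, ← Nat.floor_lt (by positivity), bd]
  omega

theorem cond_iff {c : ℝ} (hc : 0 ≤ c) (w : Fin 3 → ℕ) (N : ℕ) (f : S) :
    Cond c w N f ↔ (bd c w N : ℕ∞) ≤ wv w f := by
  rw [le_wv]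
  exact forall₂_congr fun m _ => (bd_le hc w N m).symm

theorem prod_lin (ℓ : Fin 3 → Fin 3 → ℂ) (hℓ : (Matrix.of ℓ).det ≠ 0) (m : Fin 3 → ℕ) :
    sub (Matrix.of ℓ)⁻¹ (∏ i, lin (ℓ i) ^ m i) = monomial (Finsupp.equivFunOnFinite.symm m) 1 := by
  have h := inv_lin hℓ
  rw [map_prod, monomial_eq, C_1, one_mul, Finsupp.prod_fintype _ _ (fun i => by simp)]
  refine Finset.prod_congr rfl fun i _ => ?_
  rw [map_pow]
  congr 1
  exact h i

/-- expansion in the coordinates -/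
theorem expand (M : Matrix (Fin 3) (Fin 3) ℂ) (f : S) :
    sub M f = ∑ m ∈ f.support, C (coeff m f) * ∏ i, lin (M i) ^ m i := by
  rw [sub, aeval_def, eval₂_eq']
  rfl

theorem mem_monomialIdeal {ℓ : Fin 3 → Fin 3 → ℂ} (hℓ : (Matrix.of ℓ).det ≠ 0) {c : ℝ}
    (hc : 0 ≤ c) (u : S) :
    u ∈ monomialIdeal ℓ c ↔ ∀ wN ∈ weights, Cond c wN.1 wN.2 (sub (Matrix.of ℓ)⁻¹ u) := by
  constructor
  · intro hu wN hwN
    rw [cond_iff hc]
    refine Submodule.span_induction (p := fun u _ => (bd c wN.1 wN.2 : ℕ∞) ≤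
      wv wN.1 (sub (Matrix.of ℓ)⁻¹ u)) ?_ ?_ ?_ ?_ hu
    · rintro _ ⟨m, rfl, hm⟩
      rw [prod_lin ℓ hℓ, wv_monomial _ one_ne_zero]
      exact Nat.cast_le.2 ((bd_le hc _ _ _).2 (hm wN hwN))
    · simp
    · intro f g _ _ hf hg
      rw [map_add]
      exact (wv wN.1).map_le_add hf hg
    · intro a f _ hf
      rw [smul_eq_mul, map_mul, (wv wN.1).map_mul]
      exact le_trans hf le_add_self
  · intro h
    rw [← sub_inv hℓ u, expand]
    refine Ideal.sum_mem _ fun m hm => Ideal.mul_mem_left _ _ (Ideal.subset_span ?_)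
    exact ⟨m, rfl, fun wN hwN => h wN hwN m hm⟩

/-! ### Points -/

theorem hom_deg {F : S} {d : ℕ} (hF : F.IsHomogeneous d) {m : Fin 3 →₀ ℕ} (hm : m ∈ F.support) :
    m 0 + m 1 + m 2 = d := by
  have h := hF (mem_support_iff.1 hm)
  rw [Finsupp.weight_apply, Finsupp.sum_fintype _ _ (fun i => by simp), Fin.sum_univ_three] at h
  simpa using h

theorem eval_smul_hom {F : S} {d : ℕ} (hF : F.IsHomogeneous d) (t : ℂ) (q : Fin 3 → ℂ) :
    eval (t • q) F = t ^ d * eval q F := by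
  rw [eval_eq', eval_eq', Finset.mul_sum]
  refine Finset.sum_congr rfl fun m hm => ?_
  have h := hom_deg hF hm
  simp only [Fin.prod_univ_three, Pi.smul_apply, smul_eq_mul, mul_pow]
  rw [← h, pow_add, pow_add]
  ring

theorem mem_idealOf {Z : Set (Fin 3 → ℂ)} {f : S} :
    f ∈ idealOf Z ↔ ∀ q ∈ Z, ∀ t : ℂ, eval (t • q) f = 0 := by
  rw [idealOf, mem_vanishingIdeal_iff]
  constructor
  · intro h q hq t
    have := h _ ⟨q, hq, t, rfl⟩
    rwa [aeval_eq_eval] at this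
  · rintro h _ ⟨q, hq, t, rfl⟩
    rw [aeval_eq_eval]
    exact h q hq t

theorem mem_idealOf_hom {Z : Set (Fin 3 → ℂ)} {f : S} {d : ℕ} (hf : f.IsHomogeneous d)
    (h : ∀ q ∈ Z, eval q f = 0) : f ∈ idealOf Z :=
  mem_idealOf.2 fun q hq t => by rw [eval_smul_hom hf, h q hq, mul_zero]

theorem eval_component {F : S} {q : Fin 3 → ℂ} (h : ∀ t : ℂ, eval (t • q) F = 0) (d : ℕ) :
    eval q (homogeneousComponent d F) = 0 := by
  by_cases hd : F.totalDegree < d
  · rw [homogeneousComponent_eq_zero _ _ hd, map_zero]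
  let P : Polynomial ℂ := ∑ d ∈ Finset.range (F.totalDegree + 1),
    Polynomial.C (eval q (homogeneousComponent d F)) * Polynomial.X ^ d
  have hP : P = 0 := by
    apply Polynomial.funext
    intro t
    have h1 := h t
    rw [← sum_homogeneousComponent F, map_sum] at h1
    rw [Polynomial.eval_zero, ← h1, Polynomial.eval_finsetSum]
    refine Finset.sum_congr rfl fun d _ => ?_
    rw [eval_smul_hom (homogeneousComponent_isHomogeneous d _), Polynomial.eval_mul,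
      Polynomial.eval_C, Polynomial.eval_pow, Polynomial.eval_X, mul_comm]
  have h1 := congrArg (fun P => P.coeff d) hP
  simp only [P, Polynomial.finsetSum_coeff, Polynomial.coeff_C_mul_X_pow, Polynomial.coeff_zero]
    at h1
  rw [Finset.sum_ite_eq, if_pos (by simp; omega)] at h1
  exact h1

/-- in the coordinates, with the point at `(0, 0, *)` -/
theorem pt_one {M : Matrix (Fin 3) (Fin 3) ℂ} (hM : M.det ≠ 0) {q : Fin 3 → ℂ} (hq : q ≠ 0)
    (h0 : M 0 ⬝ᵥ q = 0) (h1 : M 1 ⬝ᵥ q = 0) {f : S} (hf : f ∈ idealOf {q}) :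
    (1 : ℕ∞) ≤ wv ![1, 1, 0] (sub M⁻¹ f) := by
  have h2 : M 2 ⬝ᵥ q ≠ 0 := by
    intro h2
    apply hq
    have h3 : Matrix.mulVec M q = 0 := by
      funext i
      fin_cases i
      · exact h0
      · exact h1
      · exact h2
    exact Matrix.eq_zero_of_mulVec_eq_zero hM h3
  rw [← Nat.cast_one, le_wv]
  intro m hm
  by_contra hcon
  have hm0 : m 0 = 0 := by
    simp [wt] at hcon
    omega
  have hm1 : m 1 = 0 := by
    simp [wt] at hcon
    omega
  have hev : ∀ t : ℂ, eval (t • Matrix.mulVec M q) (sub M⁻¹ f) = 0 := by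
    intro t
    have h4 := (mem_idealOf.1 hf) q rfl t
    rw [← sub_inv hM f, eval_sub, Matrix.mulVec_smul] at h4
    exact h4
  have h5 := eval_component hev (m 2)
  have h6 : ∀ n ∈ (homogeneousComponent (m 2) (sub M⁻¹ f)).support, n ≠ m →
      coeff n (homogeneousComponent (m 2) (sub M⁻¹ f)) *
        ∏ i, Matrix.mulVec M q i ^ n i = 0 := by
    intro n hn hnm
    have h7 := hom_deg (homogeneousComponent_isHomogeneous _ _) hn
    rw [Fin.prod_univ_three, show Matrix.mulVec M q 0 = 0 from h0,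
      show Matrix.mulVec M q 1 = 0 from h1]
    by_cases hn0 : n 0 = 0
    · by_cases hn1 : n 1 = 0
      · exfalso
        apply hnm
        ext i
        fin_cases i
        · simp [hn0, hm0]
        · simp [hn1, hm1]
        · simp only [Fin.reduceFinMk]
          omega
      · rw [zero_pow hn1]
        ring
    · rw [zero_pow hn0]
      ring
  have hdeg : m.degree = m 2 := by
    rw [Finsupp.degree_eq_sum, Fin.sum_univ_three]
    omega
  rw [eval_eq', Finset.sum_eq_single m h6, Fin.prod_univ_three, hm0, hm1,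
    coeff_homogeneousComponent, if_pos hdeg] at h5
  · simp only [pow_zero, one_mul, mul_eq_zero] at h5
    rcases h5 with h5 | h5
    · exact (mem_support_iff.1 hm) h5
    · exact pow_ne_zero _ h2 h5
  · intro h
    rw [notMem_support_iff.1 h, zero_mul]

theorem pt_pow {M : Matrix (Fin 3) (Fin 3) ℂ} (hM : M.det ≠ 0) {q : Fin 3 → ℂ} (hq : q ≠ 0)
    (h0 : M 0 ⬝ᵥ q = 0) (h1 : M 1 ⬝ᵥ q = 0) (n : ℕ) {f : S} (hf : f ∈ idealOf {q} ^ n) :
    (n : ℕ∞) ≤ wv ![1, 1, 0] (sub M⁻¹ f) := by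
  induction n generalizing f with
  | zero => simp
  | succ n ih =>
    rw [pow_succ] at hf
    refine Submodule.mul_induction_on hf ?_ ?_
    · intro g hg k hk
      rw [map_mul, (wv _).map_mul]
      push_cast
      exact add_le_add (ih hg) (pt_one hM hq h0 h1 hk)
    · intro g k hg hk
      rw [map_add]
      exact (wv _).map_le_add hg hk

theorem lin_mem {r q : Fin 3 → ℂ} (h : r ⬝ᵥ q = 0) : lin r ∈ idealOf {q} :=
  mem_idealOf_hom (lin_hom r) (by
    rintro _ rfl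
    rw [eval_lin, h])

theorem mem_pow {M : Matrix (Fin 3) (Fin 3) ℂ} (hM : M.det ≠ 0) {q : Fin 3 → ℂ}
    (h0 : M 0 ⬝ᵥ q = 0) (h1 : M 1 ⬝ᵥ q = 0) {n : ℕ} {f : S}
    (hf : (n : ℕ∞) ≤ wv ![1, 1, 0] (sub M⁻¹ f)) : f ∈ idealOf {q} ^ n := by
  rw [← sub_inv hM f, expand]
  refine Ideal.sum_mem _ fun m hm => Ideal.mul_mem_left _ _ ?_
  rw [Fin.prod_univ_three]
  apply Ideal.mul_mem_right
  have h2 := le_wv.1 hf m hm
  simp only [wt, Matrix.cons_val_zero, Matrix.cons_val_one, one_mul, Matrix.cons_val,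
    zero_mul, add_zero] at h2
  refine Ideal.pow_le_pow_right h2 ?_
  rw [pow_add]
  exact Ideal.mul_mem_mul (Ideal.pow_mem_pow (lin_mem h0) _) (Ideal.pow_mem_pow (lin_mem h1) _)

end Pool.Agent.T2H40.MI
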