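import Mathlib

/-!
# Multiplier ideals of ideals on the affine space `ℂ³`, and the ideal of the 22 points

The definitions used in the statement of `MP_724b08_ag.MultiplierIdeals`.
-/

set_option autoImplicit false

namespace Pool.Agent.T2H40.MI

open MvPolynomial

/-- The valuation `v` (restricted to polynomials, written additively) is divisorial: it is a positive
multiple of the order of vanishing along a prime divisor `E` over `ℂ³`. That is, it is finite on the
nonzero polynomials, not trivial, and its residue field has transcendence degree at least two over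
`ℂ`: for some polynomials `g`, `f₁`, `f₂` the residues of `f₁ / g` and `f₂ / g` are algebraically
independent, which means that `v (H (g, f₁, f₂)) = D v (g)` for all nonzero forms `H` of degree `D`. -/
structure IsDivisorial (v : AddValuation (MvPolynomial (Fin 3) ℂ) ℕ∞) : Prop where
  finite : ∀ f, f ≠ 0 → v f ≠ ⊤
  nontrivial : ∃ f, f ≠ 0 ∧ v f ≠ 0
  residue : ∃ g f₁ f₂ : MvPolynomial (Fin 3) ℂ, g ≠ 0 ∧ ∀ (D : ℕ) (H : MvPolynomial (Fin 3) ℂ),
    H.IsHomogeneous D → H ≠ 0 → v (aeval ![g, f₁, f₂] H) = D • v g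

/-- The log discrepancy `A (v)` is at least `a`: the form `dx_0 ∧ dx_1 ∧ dx_2` is a sum of terms
`(h / q) dlog p_0 ∧ dlog p_1 ∧ dlog p_2` with `v (h / q) ≥ a`. So `A (v)` is the order of
`dx_0 ∧ dx_1 ∧ dx_2` with respect to the lattice of the logarithmic differential forms; for the order
of vanishing along a prime divisor `E ⊂ Y` over `ℂ³` it is `1 + ord_E (K_{Y / ℂ³})`. -/
def LogDiscGE (v : AddValuation (MvPolynomial (Fin 3) ℂ) ℕ∞) (a : ℕ) : Prop :=
  ∃ (T : ℕ) (q : MvPolynomial (Fin 3) ℂ) (h : Fin T → MvPolynomial (Fin 3) ℂ)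
    (p : Fin T → Fin 3 → MvPolynomial (Fin 3) ℂ),
    q ≠ 0 ∧ (∀ s j, p s j ≠ 0) ∧ (∀ s, v q + a ≤ v (h s)) ∧
    (1 : FractionRing (MvPolynomial (Fin 3) ℂ)) =
      ∑ s, algebraMap _ (FractionRing (MvPolynomial (Fin 3) ℂ)) (h s) / algebraMap _ _ q *
        (Matrix.of fun i j => algebraMap _ (FractionRing (MvPolynomial (Fin 3) ℂ))
          (pderiv i (p s j)) / algebraMap _ _ (p s j)).det

/-- The multiplier ideal `𝓙 (𝔞 ^ c)`: it consists of the `u` such that
`v (u) + A (v) > c v (𝔞)` for all divisorial valuations `v`, where `v (𝔞)` is the minimum of `v` on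
`𝔞`. -/
def multiplierIdeal (𝔞 : Ideal (MvPolynomial (Fin 3) ℂ)) (c : ℝ) :
    Set (MvPolynomial (Fin 3) ℂ) :=
  {u | u = 0 ∨ ∀ v : AddValuation (MvPolynomial (Fin 3) ℂ) ℕ∞, IsDivisorial v →
    ∃ a : ℕ, LogDiscGE v a ∧ ∃ f ∈ 𝔞, f ≠ 0 ∧ c * (v f).toNat < (v u).toNat + a}

/-- The jumping numbers of `𝔞`: the `c > 0` such that `𝓙 (𝔞 ^ c) ≠ 𝓙 (𝔞 ^ c')` for all
`0 < c' < c`. -/
def jumpingNumbers (𝔞 : Ideal (MvPolynomial (Fin 3) ℂ)) : Set ℝ :=
  {c | 0 < c ∧ ∀ c', 0 < c' → c' < c → multiplierIdeal 𝔞 c ≠ multiplierIdeal 𝔞 c'}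

/-- the linear form with the coefficients `r` -/
noncomputable def lin (r : Fin 3 → ℂ) : MvPolynomial (Fin 3) ℂ := ∑ i, C (r i) * X i

/-- The saturated homogeneous ideal of the reduced subscheme `Z` of the projective plane, where `Z` is
given by a set of homogeneous coordinate vectors: the polynomials which vanish on the cone over
`Z`. -/
noncomputable def idealOf (Z : Set (Fin 3 → ℂ)) : Ideal (MvPolynomial (Fin 3) ℂ) :=
  vanishingIdeal ℂ {x | ∃ q ∈ Z, ∃ t : ℂ, x = t • q}

/-- `a 0, …, a (N - 1)` are different points of the line `L i` with the equation `lin (ℓ i)`, and none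
of them is on another line `L j`. -/
def OnLine (ℓ : Fin 3 → Fin 3 → ℂ) (i : Fin 3) {N : ℕ} (a : Fin N → Fin 3 → ℂ) : Prop :=
  (∀ s, ℓ i ⬝ᵥ a s = 0 ∧ ∀ j, j ≠ i → ℓ j ⬝ᵥ a s ≠ 0) ∧ ∀ s s', s ≠ s' → ∀ t : ℂ, a s ≠ t • a s'

/-- The position of the lines and points: the three lines have no common point; `a` are ten points of
the first line, `b` seven points of the second line, `e` four points of the third line, not on the
other lines, and `p` is a point which is on none of the lines. -/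
structure IsGeneral (ℓ : Fin 3 → Fin 3 → ℂ) (a : Fin 10 → Fin 3 → ℂ) (b : Fin 7 → Fin 3 → ℂ)
    (e : Fin 4 → Fin 3 → ℂ) (p : Fin 3 → ℂ) : Prop where
  lines : (Matrix.of ℓ).det ≠ 0
  ten : OnLine ℓ 0 a
  seven : OnLine ℓ 1 b
  four : OnLine ℓ 2 e
  one : ∀ i, ℓ i ⬝ᵥ p ≠ 0

/-- The set of the 22 points. -/
def points (a : Fin 10 → Fin 3 → ℂ) (b : Fin 7 → Fin 3 → ℂ) (e : Fin 4 → Fin 3 → ℂ)
    (p : Fin 3 → ℂ) : Set (Fin 3 → ℂ) :=
  Set.range a ∪ Set.range b ∪ Set.range e ∪ {p}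

/-- The weights `w` and the numbers `N = v (I (Z))` of the seven monomial valuations: the exceptional
divisor of the blow-up of the origin, a divisor over each line, and a divisor over each of the
points `L 0 ∩ L 1`, `L 0 ∩ L 2`, `L 1 ∩ L 2`. The weights are those of the equations of the lines. -/
def weights : List ((Fin 3 → ℕ) × ℕ) :=
  [(![1, 1, 1], 4), (![7, 1, 1], 10), (![1, 5, 1], 8), (![1, 1, 3], 6),
    (![3, 5, 1], 10), (![5, 1, 3], 10), (![1, 3, 3], 8)]

/-- The ideal generated by the products `x ^ i y ^ j z ^ k` of the equations `x`, `y`, `z` of the three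
lines such that `w_0 (i + 1) + w_1 (j + 1) + w_2 (k + 1) > c N` for the seven pairs `(w, N)`. -/
noncomputable def monomialIdeal (ℓ : Fin 3 → Fin 3 → ℂ) (c : ℝ) :
    Ideal (MvPolynomial (Fin 3) ℂ) :=
  Ideal.span {u | ∃ m : Fin 3 → ℕ, u = ∏ i, lin (ℓ i) ^ m i ∧
    ∀ wN ∈ weights, c * wN.2 < ∑ i, (wN.1 i : ℝ) * (m i + 1)}

end Pool.Agent.T2H40.MI
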