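import Pool.Agent.T2H40.MI.Lin

/-! Log discrepancies. -/

set_option autoImplicit false

namespace Pool.Agent.T2H40.MI

open MvPolynomial

/-- the Jacobian determinant -/
noncomputable def jac (p : Fin 3 → S) : S := (Matrix.of fun i j => pderiv i (p j)).det

theorem det_div {K : Type*} [Field K] (A : Fin 3 → Fin 3 → K) (P : Fin 3 → K) :
    (Matrix.of fun i j => A i j / P j).det = (Matrix.of A).det / ∏ j, P j := by
  have h := Matrix.det_mul_row (fun j => (P j)⁻¹) (Matrix.of A)
  have e : (Matrix.of fun i j => A i j / P j) =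
      Matrix.of fun i j => (P j)⁻¹ * (Matrix.of A) i j := by
    ext i j
    simp only [Matrix.of_apply]
    rw [div_eq_inv_mul]
  rw [e, h, Finset.prod_inv_distrib, div_eq_inv_mul]

theorem det_alg (p : Fin 3 → S) :
    (Matrix.of fun i j => algebraMap S (FractionRing S) (pderiv i (p j)) /
      algebraMap S (FractionRing S) (p j)).det =
      algebraMap S (FractionRing S) (jac p) / ∏ j, algebraMap S (FractionRing S) (p j) := by
  rw [det_div (fun i j => algebraMap S (FractionRing S) (pderiv i (p j)))]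
  congr 1
  rw [jac, RingHom.map_det]
  rfl

theorem logDisc_one {v : AddValuation S ℕ∞} {a : ℕ} (q h : S) (p : Fin 3 → S) (hq : q ≠ 0)
    (hp : ∀ j, p j ≠ 0) (hv : v q + a ≤ v h) (hid : q * ∏ j, p j = h * jac p) :
    LogDiscGE v a := by
  refine ⟨1, q, fun _ => h, fun _ => p, hq, fun _ j => hp j, fun _ => hv, ?_⟩
  have hinj := IsFractionRing.injective S (FractionRing S)
  have hq' : algebraMap S (FractionRing S) q ≠ 0 := by
    rw [Ne, ← map_zero (algebraMap S (FractionRing S))]
    exact fun h0 => hq (hinj h0)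
  have hp' : ∏ j, algebraMap S (FractionRing S) (p j) ≠ 0 := by
    rw [Finset.prod_ne_zero_iff]
    intro j _
    rw [Ne, ← map_zero (algebraMap S (FractionRing S))]
    exact fun h0 => hp j (hinj h0)
  rw [Fin.sum_univ_one, det_alg, div_mul_div_comm, eq_div_iff (mul_ne_zero hq' hp'), one_mul,
    ← map_prod, ← map_mul, ← map_mul, hid]

theorem prod_ne {ι : Type} (s : Finset ι) (f : ι → S) (h : ∀ i, f i ≠ 0) : ∏ i ∈ s, f i ≠ 0 :=
  Finset.prod_ne_zero_iff.2 fun i _ => h i

/-- clearing the denominators -/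
theorem logDisc_identity {T : ℕ} {q : S} {h : Fin T → S} {p : Fin T → Fin 3 → S} (hq : q ≠ 0)
    (hp : ∀ s j, p s j ≠ 0)
    (hid : (1 : FractionRing S) =
      ∑ s, algebraMap _ (FractionRing S) (h s) / algebraMap _ _ q *
        (Matrix.of fun i j => algebraMap _ (FractionRing S)
          (pderiv i (p s j)) / algebraMap _ _ (p s j)).det) :
    q * ∏ s, ∏ j, p s j =
      ∑ s, h s * jac (p s) * ∏ s' ∈ Finset.univ.erase s, ∏ j, p s' j := by
  classical
  have hinj := IsFractionRing.injective S (FractionRing S)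
  apply hinj
  have hne : ∀ f : S, f ≠ 0 → algebraMap S (FractionRing S) f ≠ 0 := by
    intro f hf
    rw [Ne, ← map_zero (algebraMap S (FractionRing S))]
    exact fun h0 => hf (hinj h0)
  rw [map_sum]
  have h1 : ∀ s ∈ (Finset.univ : Finset (Fin T)),
      algebraMap S (FractionRing S) (h s * jac (p s) *
        ∏ s' ∈ Finset.univ.erase s, ∏ j, p s' j) =
      algebraMap S (FractionRing S) (q * ∏ s, ∏ j, p s j) *
        (algebraMap _ (FractionRing S) (h s) / algebraMap _ _ q *
        (Matrix.of fun i j => algebraMap _ (FractionRing S)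
          (pderiv i (p s j)) / algebraMap _ _ (p s j)).det) := by
    intro s _
    rw [det_alg, ← Finset.mul_prod_erase Finset.univ (fun s => ∏ j, p s j) (Finset.mem_univ s)]
    have hp1 : ∏ j, algebraMap S (FractionRing S) (p s j) ≠ 0 := by
      rw [← map_prod]
      exact hne _ (prod_ne _ _ (hp s))
    have hq1 := hne q hq
    simp only [map_mul, map_prod]
    field_simp
  rw [Finset.sum_congr rfl h1, ← Finset.mul_sum, ← hid, mul_one]

theorem det_matrix (M : Matrix (Fin 3) (Fin 3) ℂ) :
    jac (fun j => lin (M j)) = C M.det := by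
  unfold jac
  simp only [pderiv_lin]
  rw [← Matrix.det_transpose M, RingHom.map_det]
  rfl

/-- the log discrepancy and linear forms -/
theorem logDisc_lin {v : AddValuation S ℕ∞} (M : Matrix (Fin 3) (Fin 3) ℂ) (hM : M.det ≠ 0)
    {a : ℕ} (ha : (a : ℕ∞) ≤ v (lin (M 0)) + v (lin (M 1)) + v (lin (M 2))) : LogDiscGE v a := by
  have hne : ∀ j, lin (M j) ≠ 0 := fun j => lin_ne_zero fun h0 =>
    hM (Matrix.det_eq_zero_of_row_eq_zero j fun k => by rw [h0]; rfl)
  have hC : ∀ c : ℂ, c ≠ 0 → v (C c) = 0 := by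
    intro c hc
    have h1 : v (C c) + v (C c⁻¹) = 0 := by
      rw [← v.map_mul, ← C_mul, mul_inv_cancel₀ hc, C_1, v.map_one]
    exact (add_eq_zero.1 h1).1
  refine logDisc_one (C M.det) (∏ j, lin (M j)) (fun j => lin (M j)) (by simpa using hM) hne ?_ ?_
  · rw [hC _ hM, zero_add, Fin.prod_univ_three, v.map_mul, v.map_mul]
    exact ha
  · rw [det_matrix, mul_comm]

theorem val_C {v : AddValuation S ℕ∞} {c : ℂ} (hc : c ≠ 0) : v (C c) = 0 := by
  have h1 : v (C c) + v (C c⁻¹) = 0 := by
    rw [← v.map_mul, ← C_mul, mul_inv_cancel₀ hc, C_1, v.map_one]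
  exact (add_eq_zero.1 h1).1

theorem exists_pderiv {f : S} (hf' : ∀ c, f ≠ C c) :
    ∃ i, pderiv i f ≠ 0 ∧ (pderiv i f).totalDegree < f.totalDegree := by
  classical
  obtain ⟨m, hm, hm0⟩ : ∃ m ∈ f.support, m ≠ 0 := by
    by_contra hcon
    push Not at hcon
    apply hf' (coeff 0 f)
    ext m
    rw [coeff_C]
    split_ifs with h
    · rw [h]
    · by_contra h'
      exact h (hcon m (mem_support_iff.2 h')).symm
  obtain ⟨i, hi⟩ : ∃ i, m i ≠ 0 := by
    by_contra hcon
    push Not at hcon
    exact hm0 (Finsupp.ext hcon)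
  have h1 : coeff (m - Finsupp.single i 1) (pderiv i f) ≠ 0 := by
    rw [coeff_pderiv]
    have e : m - Finsupp.single i 1 + Finsupp.single i 1 = m := by
      apply tsub_add_cancel_of_le
      rw [Finsupp.single_le_iff]
      omega
    rw [e]
    refine mul_ne_zero (mem_support_iff.1 hm) ?_
    exact Nat.cast_add_one_ne_zero _
  have h0 : pderiv i f ≠ 0 := by
    intro h
    rw [h] at h1
    exact h1 (coeff_zero _)
  refine ⟨i, h0, ?_⟩
  have hle : ∀ n ∈ (pderiv i f).support, (n.sum fun _ e => e) + 1 ≤ f.totalDegree := by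
    intro n hn
    have h2 : n + Finsupp.single i 1 ∈ f.support := by
      rw [mem_support_iff] at hn ⊢
      rw [coeff_pderiv] at hn
      exact left_ne_zero_of_mul hn
    have h3 := le_totalDegree h2
    rw [Finsupp.sum_add_index' (fun _ => rfl) (fun _ _ _ => rfl), Finsupp.sum_single_index rfl] at h3
    exact h3
  obtain ⟨n, hn, hn'⟩ := Finset.exists_mem_eq_sup (pderiv i f).support
    (support_nonempty.2 h0) (fun n => n.sum fun _ e => e)
  rw [totalDegree, hn']
  exact hle n hn

theorem jac_update (f : S) (i : Fin 3) :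
    jac (fun j => if j = i then f else X j) = pderiv i f := by
  fin_cases i <;> simp [jac, Matrix.det_fin_three, pderiv_X]

theorem logDisc_pos {v : AddValuation S ℕ∞} (hv : IsDivisorial v) : LogDiscGE v 1 := by
  classical
  have hex : ∃ n, ∃ f : S, f ≠ 0 ∧ v f ≠ 0 ∧ f.totalDegree = n := by
    obtain ⟨f, h1, h2⟩ := hv.nontrivial
    exact ⟨_, f, h1, h2, rfl⟩
  obtain ⟨f, h1, h2, h3⟩ := Nat.find_spec hex
  obtain ⟨i, hi, hi'⟩ := exists_pderiv (f := f) (by
    rintro c rfl
    apply h2
    apply val_C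
    rintro rfl
    exact h1 (by simp))
  have h4 : v (pderiv i f) = 0 := by
    by_contra hcon
    exact Nat.find_min hex (h3 ▸ hi') ⟨_, hi, hcon, rfl⟩
  refine logDisc_one (pderiv i f) (∏ j, if j = i then f else X j)
    (fun j => if j = i then f else X j) hi (fun j => ?_) ?_ ?_
  · split_ifs
    · exact h1
    · exact X_ne_zero _
  · rw [h4, zero_add, ← Finset.mul_prod_erase _ _ (Finset.mem_univ i), v.map_mul, if_pos rfl]
    refine le_trans ?_ le_self_add
    rw [Nat.cast_one]
    exact Order.one_le_iff_ne_zero.2 h2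
  · rw [jac_update, mul_comm]

theorem pderiv_sub (B : Matrix (Fin 3) (Fin 3) ℂ) (k : Fin 3) (f : S) :
    pderiv k (sub B f) = ∑ i, C (B i k) * sub B (pderiv i f) := by
  induction f using MvPolynomial.induction_on with
  | C a => simp
  | add f g hf hg => 
    simp only [map_add, hf, hg, mul_add, Finset.sum_add_distrib]
  | mul_X f n hf =>
    rw [map_mul, sub_X, Derivation.leibniz, hf, pderiv_lin]
    simp only [Derivation.leibniz, pderiv_X, smul_eq_mul, map_add, map_mul, sub_X]
    simp only [mul_add, Finset.sum_add_distrib, Finset.mul_sum]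
    congr 1
    · rw [Finset.sum_eq_single n]
      · simp
        ring
      · intro j _ hj
        simp [hj]
      · intro h
        exact absurd (Finset.mem_univ n) h
    · refine Finset.sum_congr rfl fun i _ => ?_
      ring

theorem jac_sub (B : Matrix (Fin 3) (Fin 3) ℂ) (p : Fin 3 → S) :
    jac (fun j => sub B (p j)) = C B.det * sub B (jac p) := by
  unfold jac
  have e : (Matrix.of fun i j => pderiv i (sub B (p j))) =
      (B.transpose.map (C : ℂ →+* S)) * (Matrix.of fun i j => pderiv i (p j)).map (sub B) := by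
    ext1 i j
    rw [Matrix.of_apply, pderiv_sub, Matrix.mul_apply]
    rfl
  rw [e, Matrix.det_mul]
  congr 1
  · rw [← Matrix.det_transpose B]
    exact (RingHom.map_det (C : ℂ →+* S) B.transpose).symm
  · exact (AlgHom.map_det (sub B) _).symm

theorem wv_X_mul_pderiv (w : Fin 3 → ℕ) (k : Fin 3) (f : S) : wv w f ≤ wv w (X k * pderiv k f) := by
  by_cases hf : f = 0
  · simp [hf]
  obtain ⟨m, hm, hm'⟩ := exists_wv (w := w) hf
  rw [hm', le_wv]
  intro n hn
  rw [mem_support_iff, coeff_X_mul'] at hn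
  split_ifs at hn with h
  · rw [coeff_pderiv] at hn
    have h1 := left_ne_zero_of_mul hn
    have e : n - Finsupp.single k 1 + Finsupp.single k 1 = n := by
      apply tsub_add_cancel_of_le
      rw [Finsupp.single_le_iff]
      have := Finsupp.mem_support_iff.1 h
      omega
    rw [e] at h1
    exact le_wv.1 hm'.ge n (mem_support_iff.2 h1)
  · exact absurd rfl hn

theorem wv_jac (w : Fin 3 → ℕ) (p : Fin 3 → S) :
    ∑ j, wv w (p j) ≤ ((w 0 + w 1 + w 2 : ℕ) : ℕ∞) + wv w (jac p) := by
  have hX : ∀ i, wv w (X i) = w i := by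
    intro i
    have h := wv_monomial (w := w) (Finsupp.single i 1) (one_ne_zero (α := ℂ))
    rw [show (X i : S) = monomial (Finsupp.single i 1) 1 from rfl, h]
    fin_cases i <;> simp [wt]
  have h1 : X 0 * X 1 * X 2 * jac p = (Matrix.of fun i j => X i * pderiv i (p j)).det := by
    simp only [jac, Matrix.det_fin_three, Matrix.of_apply]
    ring
  have h2 : ((w 0 + w 1 + w 2 : ℕ) : ℕ∞) + wv w (jac p) = wv w (X 0 * X 1 * X 2 * jac p) := by
    simp only [(wv w).map_mul, hX]
    push_cast
    ring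
  rw [h2, h1, Matrix.det_apply]
  refine (wv w).map_le_sum fun σ _ => ?_
  have h3 : wv w (∏ i, Matrix.of (fun i j => X i * pderiv i (p j)) (σ i) i) =
      ∑ i, wv w (X (σ i) * pderiv (σ i) (p i)) := by
    simp only [Fin.prod_univ_three, Fin.sum_univ_three, (wv w).map_mul, Matrix.of_apply]
  have h4 : ∑ j, wv w (p j) ≤
      wv w (∏ i, Matrix.of (fun i j => X i * pderiv i (p j)) (σ i) i) := by
    rw [h3]
    exact Finset.sum_le_sum fun i _ => wv_X_mul_pderiv w _ _
  rcases Int.units_eq_one_or (Equiv.Perm.sign σ) with h | h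
  · rw [h, one_smul]
    exact h4
  · rw [h, Units.neg_smul, one_smul, (wv w).map_neg]
    exact h4

theorem logDisc_upper {w : Fin 3 → ℕ} {B : Matrix (Fin 3) (Fin 3) ℂ} (hB : B.det ≠ 0)
    (hinj : ∀ f, f ≠ 0 → sub B f ≠ 0) {a : ℕ}
    (ha : LogDiscGE ((wv w).comap (sub B : S →+* S)) a) : a ≤ w 0 + w 1 + w 2 := by
  classical
  obtain ⟨T, q, h, p, hq, hp, hh, hid⟩ := ha
  have hid' := congrArg (sub B) (logDisc_identity hq hp hid)
  set V := wv w with hV
  have hfin : ∀ f, f ≠ 0 → V (sub B f) ≠ ⊤ := fun f hf => wv_ne_top (hinj f hf)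
  have hh' : ∀ s, V (sub B q) + a ≤ V (sub B (h s)) := hh
  have hL : q * ∏ s, ∏ j, p s j ≠ 0 :=
    mul_ne_zero hq (prod_ne _ _ fun s => prod_ne _ _ (hp s))
  obtain ⟨s, hs⟩ : ∃ s, V (sub B (h s * jac (p s) * ∏ s' ∈ Finset.univ.erase s, ∏ j, p s' j)) ≤
      V (sub B (q * ∏ s, ∏ j, p s j)) := by
    by_contra hcon
    push Not at hcon
    have h1 := V.map_lt_sum (s := Finset.univ)
      (f := fun s => sub B (h s * jac (p s) * ∏ s' ∈ Finset.univ.erase s, ∏ j, p s' j))
      (hfin _ hL) (fun s _ => hcon s)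
    rw [← map_sum, ← hid'] at h1
    exact lt_irrefl _ h1
  rw [← Finset.mul_prod_erase Finset.univ (fun s => ∏ j, p s j) (Finset.mem_univ s),
    ← mul_assoc, map_mul (sub B), map_mul (sub B) (q * ∏ j, p s j), V.map_mul, V.map_mul] at hs
  have hR : V (sub B (∏ s' ∈ Finset.univ.erase s, ∏ j, p s' j)) ≠ ⊤ :=
    hfin _ (prod_ne _ _ fun s => prod_ne _ _ (hp s))
  have hs' : V (sub B (h s * jac (p s))) ≤ V (sub B (q * ∏ j, p s j)) :=
    (ENat.add_le_add_iff_right hR).1 hs
  have hj := wv_jac w (fun j => sub B (p s j))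
  rw [jac_sub, (wv w).map_mul, val_C hB, zero_add] at hj
  rw [Fin.prod_univ_three] at hs'
  simp only [map_mul (sub B), V.map_mul] at hs'
  rw [Fin.sum_univ_three] at hj
  have hfq := hfin q hq
  have h0 := hfin _ (hp s 0)
  have h1 := hfin _ (hp s 1)
  have h2 := hfin _ (hp s 2)
  have hhs := hh' s
  rw [← hV] at hj
  generalize V (sub B (jac (p s))) = J at *
  generalize V (sub B (h s)) = H at *
  generalize V (sub B q) = Q at *
  generalize V (sub B (p s 0)) = P0 at *
  generalize V (sub B (p s 1)) = P1 at *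
  generalize V (sub B (p s 2)) = P2 at *
  lift Q to ℕ using hfq
  lift P0 to ℕ using h0
  lift P1 to ℕ using h1
  lift P2 to ℕ using h2
  have hH : H ≠ ⊤ := by
    intro h
    rw [h, top_add] at hs'
    exact absurd hs' (by norm_cast)
  have hJ : J ≠ ⊤ := by
    intro h
    rw [h, add_top] at hs'
    exact absurd hs' (by norm_cast)
  lift H to ℕ using hH
  lift J to ℕ using hJ
  norm_cast at *
  omega

end Pool.Agent.T2H40.MI
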