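import Pool.Agent.T2H40.MI.Upper

/-! Elements of the ideal of the points. -/

set_option autoImplicit false

namespace Pool.Agent.T2H40.MI

open MvPolynomial

theorem interp {ι : Type} [Fintype ι] (P : ι → Fin 3 → ℂ) (D : ℕ)
    (hsep : ∀ i, ∃ g : S, g.IsHomogeneous D ∧ eval (P i) g ≠ 0 ∧ ∀ j, j ≠ i → eval (P j) g = 0)
    (vals : ι → ℂ) : ∃ g : S, g.IsHomogeneous D ∧ ∀ i, eval (P i) g = vals i := by
  classical
  choose g h1 h2 h3 using hsep
  refine ⟨∑ i, C (vals i / eval (P i) (g i)) * g i, ?_, ?_⟩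
  · exact IsHomogeneous.sum _ _ _ fun i _ => (h1 i).C_mul _
  · intro i
    rw [map_sum, Finset.sum_eq_single i]
    · rw [map_mul, eval_C, div_mul_cancel₀ _ (h2 i)]
    · intro j _ hj
      rw [map_mul, h3 j i hj.symm, mul_zero]
    · intro h
      exact absurd (Finset.mem_univ i) h

theorem hom_prod {ι : Type} (s : Finset ι) (r : ι → Fin 3 → ℂ) :
    (∏ i ∈ s, lin (r i)).IsHomogeneous s.card := by
  have h := IsHomogeneous.prod s (fun i => lin (r i)) (fun _ => 1) (fun i _ => lin_hom _)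
  simpa using h

variable {ℓ : Fin 3 → Fin 3 → ℂ} {a : Fin 10 → Fin 3 → ℂ} {b : Fin 7 → Fin 3 → ℂ}
  {e : Fin 4 → Fin 3 → ℂ} {p : Fin 3 → ℂ}

theorem cr_ne (hℓ : (Matrix.of ℓ).det ≠ 0) (i j k : Fin 3)
    (hji : j ≠ i) (hki : k ≠ i) (hall : ∀ l, l = i ∨ l = j ∨ l = k)
    {N : ℕ} {a : Fin N → Fin 3 → ℂ} (ha : OnLine ℓ i a) (s s' : Fin N) (hs : s ≠ s') :
    cr ℓ j k (a s) ⬝ᵥ a s' ≠ 0 := by
  have h1 := ratio_ne hℓ i j k hji hki hall ha s s' hs
  rw [cr_dot]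
  intro h2
  apply h1
  rw [div_eq_div_iff ((ha.1 s).2 k hki) ((ha.1 s').2 k hki)]
  linear_combination -h2

theorem interp6 (h : IsGeneral ℓ a b e p) (vals : Fin 4 ⊕ Unit → ℂ) :
    ∃ g : S, g.IsHomogeneous 6 ∧ ∀ i, eval (Sum.elim e (fun _ => p) i) g = vals i := by
  classical
  refine interp _ _ ?_ _
  rintro (s | _)
  · refine ⟨lin (cr ℓ 0 2 p) * (∏ s' ∈ Finset.univ.erase s, lin (cr ℓ 0 1 (e s'))) *
      lin (ℓ 0) ^ 2, ?_, ?_, ?_⟩
    · have h1 := ((lin_hom (cr ℓ 0 2 p)).mul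
        (hom_prod (Finset.univ.erase s) fun s' => cr ℓ 0 1 (e s'))).mul ((lin_hom (ℓ 0)).pow 2)
      rw [Finset.card_erase_of_mem (Finset.mem_univ s), Finset.card_univ, Fintype.card_fin] at h1
      exact h1
    · simp only [Sum.elim_inl, map_mul, map_pow, map_prod, eval_lin]
      refine mul_ne_zero (mul_ne_zero ?_ ?_) (pow_ne_zero _ ((h.four.1 s).2 0 (by decide)))
      · rw [cr_dot, (h.four.1 s).1, mul_zero, sub_zero]
        exact mul_ne_zero (h.one 2) ((h.four.1 s).2 0 (by decide))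
      · exact Finset.prod_ne_zero_iff.2 fun s' hs' => cr_ne h.lines 2 0 1 (by decide) (by decide)
          (by decide) h.four s' s (Finset.ne_of_mem_erase hs')
    · rintro (j | _) hj
      · have hj' : j ≠ s := fun h => hj (by rw [h])
        simp only [Sum.elim_inl, map_mul, map_pow, map_prod, eval_lin]
        rw [Finset.prod_eq_zero (Finset.mem_erase.2 ⟨hj', Finset.mem_univ j⟩) (cr_self _ _ _ _)]
        ring
      · simp only [Sum.elim_inr, map_mul, eval_lin, cr_self, zero_mul]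
  · refine ⟨lin (ℓ 2) ^ 6, (lin_hom (ℓ 2)).pow 6, ?_, ?_⟩
    · simp only [Sum.elim_inr, map_pow, eval_lin]
      exact pow_ne_zero _ (h.one 2)
    · rintro (j | _) hj
      · simp only [Sum.elim_inl, map_pow, eval_lin, (h.four.1 j).1]
        norm_num
      · exact absurd rfl hj

theorem interp9 (h : IsGeneral ℓ a b e p) (vals : Fin 7 ⊕ Fin 4 ⊕ Unit → ℂ) :
    ∃ g : S, g.IsHomogeneous 9 ∧
      ∀ i, eval (Sum.elim b (Sum.elim e (fun _ => p)) i) g = vals i := by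
  classical
  refine interp _ _ ?_ _
  rintro (s | s | _)
  · refine ⟨lin (ℓ 2) * lin (cr ℓ 1 2 p) *
      (∏ s' ∈ Finset.univ.erase s, lin (cr ℓ 0 2 (b s'))) * lin (ℓ 0), ?_, ?_, ?_⟩
    · have h1 := (((lin_hom (ℓ 2)).mul (lin_hom (cr ℓ 1 2 p))).mul
        (hom_prod (Finset.univ.erase s) fun s' => cr ℓ 0 2 (b s'))).mul (lin_hom (ℓ 0))
      rw [Finset.card_erase_of_mem (Finset.mem_univ s), Finset.card_univ, Fintype.card_fin] at h1
      exact h1
    · simp only [Sum.elim_inl, map_mul, map_prod, eval_lin]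
      refine mul_ne_zero (mul_ne_zero (mul_ne_zero ((h.seven.1 s).2 2 (by decide)) ?_) ?_)
        ((h.seven.1 s).2 0 (by decide))
      · rw [cr_dot, (h.seven.1 s).1, mul_zero, zero_sub]
        exact neg_ne_zero.2 (mul_ne_zero (h.one 1) ((h.seven.1 s).2 2 (by decide)))
      · exact Finset.prod_ne_zero_iff.2 fun s' hs' => cr_ne h.lines 1 0 2 (by decide) (by decide)
          (by decide) h.seven s' s (Finset.ne_of_mem_erase hs')
    · rintro (j | j | _) hj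
      · have hj' : j ≠ s := fun h => hj (by rw [h])
        simp only [Sum.elim_inl, map_mul, map_prod, eval_lin]
        rw [Finset.prod_eq_zero (Finset.mem_erase.2 ⟨hj', Finset.mem_univ j⟩) (cr_self _ _ _ _)]
        ring
      · simp only [Sum.elim_inr, Sum.elim_inl, map_mul, eval_lin, (h.four.1 j).1, zero_mul]
      · simp only [Sum.elim_inr, map_mul, eval_lin, cr_self, zero_mul, mul_zero]
  · refine ⟨lin (ℓ 1) * lin (cr ℓ 0 2 p) *
      (∏ s' ∈ Finset.univ.erase s, lin (cr ℓ 0 1 (e s'))) * lin (ℓ 0) ^ 4, ?_, ?_, ?_⟩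
    · have h1 := (((lin_hom (ℓ 1)).mul (lin_hom (cr ℓ 0 2 p))).mul
        (hom_prod (Finset.univ.erase s) fun s' => cr ℓ 0 1 (e s'))).mul ((lin_hom (ℓ 0)).pow 4)
      rw [Finset.card_erase_of_mem (Finset.mem_univ s), Finset.card_univ, Fintype.card_fin] at h1
      exact h1
    · simp only [Sum.elim_inr, Sum.elim_inl, map_mul, map_pow, map_prod, eval_lin]
      refine mul_ne_zero (mul_ne_zero (mul_ne_zero ((h.four.1 s).2 1 (by decide)) ?_) ?_)
        (pow_ne_zero _ ((h.four.1 s).2 0 (by decide)))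
      · rw [cr_dot, (h.four.1 s).1, mul_zero, sub_zero]
        exact mul_ne_zero (h.one 2) ((h.four.1 s).2 0 (by decide))
      · exact Finset.prod_ne_zero_iff.2 fun s' hs' => cr_ne h.lines 2 0 1 (by decide) (by decide)
          (by decide) h.four s' s (Finset.ne_of_mem_erase hs')
    · rintro (j | j | _) hj
      · simp only [Sum.elim_inl, map_mul, eval_lin, (h.seven.1 j).1, zero_mul]
      · have hj' : j ≠ s := fun h => hj (by rw [h])
        simp only [Sum.elim_inr, Sum.elim_inl, map_mul, map_pow, map_prod, eval_lin]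
        rw [Finset.prod_eq_zero (Finset.mem_erase.2 ⟨hj', Finset.mem_univ j⟩) (cr_self _ _ _ _)]
        ring
      · simp only [Sum.elim_inr, map_mul, eval_lin, cr_self, zero_mul, mul_zero]
  · refine ⟨lin (ℓ 1) * lin (ℓ 2) ^ 8, (lin_hom (ℓ 1)).mul ((lin_hom (ℓ 2)).pow 8), ?_, ?_⟩
    · simp only [Sum.elim_inr, map_mul, map_pow, eval_lin]
      exact mul_ne_zero (h.one 1) (pow_ne_zero _ (h.one 2))
    · rintro (j | j | _) hj
      · simp only [Sum.elim_inl, map_mul, eval_lin, (h.seven.1 j).1, zero_mul]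
      · simp only [Sum.elim_inr, Sum.elim_inl, map_mul, map_pow, eval_lin, (h.four.1 j).1]
        norm_num
      · exact absurd rfl hj

theorem points_cases {Q : (Fin 3 → ℂ) → Prop} (ha : ∀ s, Q (a s)) (hb : ∀ s, Q (b s))
    (he : ∀ s, Q (e s)) (hp : Q p) : ∀ q ∈ points a b e p, Q q := by
  rintro q (((⟨s, rfl⟩ | ⟨s, rfl⟩) | ⟨s, rfl⟩) | hq)
  · exact ha s
  · exact hb s
  · exact he s
  · rw [hq]
    exact hp

theorem f4_mem (h : IsGeneral ℓ a b e p) {r : Fin 3 → ℂ} (hr : r ⬝ᵥ p = 0) :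
    lin (ℓ 0) * lin (ℓ 1) * lin (ℓ 2) * lin r ∈ idealOf (points a b e p) := by
  refine mem_idealOf_hom ((((lin_hom _).mul (lin_hom _)).mul (lin_hom _)).mul (lin_hom _)) ?_
  refine points_cases (fun s => ?_) (fun s => ?_) (fun s => ?_) ?_
  · simp [eval_lin, (h.ten.1 s).1]
  · simp [eval_lin, (h.seven.1 s).1]
  · simp [eval_lin, (h.four.1 s).1]
  · simp [eval_lin, hr]

theorem f6_mem (h : IsGeneral ℓ a b e p) : ∃ g : S, g.IsHomogeneous 3 ∧
    lin (ℓ 0) * lin (ℓ 1) * (∏ s, lin (cr ℓ 0 1 (e s)) + lin (ℓ 2) * g) ∈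
      idealOf (points a b e p) := by
  obtain ⟨c, hc⟩ : ∃ c : ℂ, (∏ s, (cr ℓ 0 1 (e s) ⬝ᵥ p)) + (ℓ 2 ⬝ᵥ p) * (c * (ℓ 2 ⬝ᵥ p) ^ 3) = 0 := by
    refine ⟨-(∏ s, (cr ℓ 0 1 (e s) ⬝ᵥ p)) / (ℓ 2 ⬝ᵥ p) ^ 4, ?_⟩
    have := h.one 2
    field_simp
    ring
  refine ⟨C c * lin (ℓ 2) ^ 3, ((lin_hom (ℓ 2)).pow 3).C_mul c, ?_⟩
  have hh : (lin (ℓ 0) * lin (ℓ 1) * (∏ s, lin (cr ℓ 0 1 (e s)) +
      lin (ℓ 2) * (C c * lin (ℓ 2) ^ 3))).IsHomogeneous 6 := by
    have h1 := hom_prod Finset.univ fun s => cr ℓ 0 1 (e s)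
    rw [Finset.card_univ, Fintype.card_fin] at h1
    exact ((lin_hom _).mul (lin_hom _)).mul
      (h1.add ((lin_hom (ℓ 2)).mul (((lin_hom (ℓ 2)).pow 3).C_mul c)))
  refine mem_idealOf_hom hh ?_
  refine points_cases (fun s => ?_) (fun s => ?_) (fun s => ?_) ?_
  · simp [eval_lin, (h.ten.1 s).1]
  · simp [eval_lin, (h.seven.1 s).1]
  · simp only [map_mul, map_add, map_prod, eval_lin, (h.four.1 s).1, zero_mul, add_zero]
    rw [Finset.prod_eq_zero (Finset.mem_univ s) (cr_self _ _ _ _), mul_zero]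
  · simp only [map_mul, map_add, map_prod, map_pow, eval_lin, eval_C]
    rw [hc, mul_zero]

theorem f8_mem (h : IsGeneral ℓ a b e p) : ∃ g : S, g.IsHomogeneous 6 ∧
    lin (ℓ 0) * (∏ s, lin (cr ℓ 0 2 (b s)) + lin (ℓ 1) * g) ∈ idealOf (points a b e p) := by
  obtain ⟨g, hg, hg'⟩ := interp6 h fun i =>
    -(eval (Sum.elim e (fun _ => p) i) (∏ s, lin (cr ℓ 0 2 (b s)))) /
      (ℓ 1 ⬝ᵥ Sum.elim e (fun _ => p) i)
  refine ⟨g, hg, ?_⟩
  have hh : (lin (ℓ 0) * (∏ s, lin (cr ℓ 0 2 (b s)) + lin (ℓ 1) * g)).IsHomogeneous 8 := by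
    have h1 := hom_prod Finset.univ fun s => cr ℓ 0 2 (b s)
    rw [Finset.card_univ, Fintype.card_fin] at h1
    exact (lin_hom _).mul (h1.add ((lin_hom (ℓ 1)).mul hg))
  refine mem_idealOf_hom hh ?_
  refine points_cases (fun s => ?_) (fun s => ?_) (fun s => ?_) ?_
  · simp [eval_lin, (h.ten.1 s).1]
  · simp only [map_mul, map_add, map_prod, eval_lin, (h.seven.1 s).1, zero_mul, add_zero]
    rw [Finset.prod_eq_zero (Finset.mem_univ s) (cr_self _ _ _ _), mul_zero]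
  · have h1 := hg' (Sum.inl s)
    simp only [Sum.elim_inl] at h1
    rw [map_mul, map_add, map_mul (eval (e s)) (lin (ℓ 1)), h1, eval_lin, eval_lin,
      mul_div_cancel₀ _ ((h.four.1 s).2 1 (by decide)), add_neg_cancel, mul_zero]
  · have h1 := hg' (Sum.inr ())
    simp only [Sum.elim_inr] at h1
    rw [map_mul, map_add, map_mul (eval p) (lin (ℓ 1)), h1, eval_lin, eval_lin,
      mul_div_cancel₀ _ (h.one 1), add_neg_cancel, mul_zero]

theorem f10_mem (h : IsGeneral ℓ a b e p) : ∃ g : S, g.IsHomogeneous 9 ∧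
    (∏ s, lin (cr ℓ 1 2 (a s)) + lin (ℓ 0) * g) ∈ idealOf (points a b e p) := by
  obtain ⟨g, hg, hg'⟩ := interp9 h fun i =>
    -(eval (Sum.elim b (Sum.elim e (fun _ => p)) i) (∏ s, lin (cr ℓ 1 2 (a s)))) /
      (ℓ 0 ⬝ᵥ Sum.elim b (Sum.elim e (fun _ => p)) i)
  refine ⟨g, hg, ?_⟩
  have hh : (∏ s, lin (cr ℓ 1 2 (a s)) + lin (ℓ 0) * g).IsHomogeneous 10 := by
    have h1 := hom_prod Finset.univ fun s => cr ℓ 1 2 (a s)
    rw [Finset.card_univ, Fintype.card_fin] at h1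
    exact h1.add ((lin_hom (ℓ 0)).mul hg)
  refine mem_idealOf_hom hh ?_
  refine points_cases (fun s => ?_) (fun s => ?_) (fun s => ?_) ?_
  · simp only [map_mul, map_add, map_prod, eval_lin, (h.ten.1 s).1, zero_mul, add_zero]
    rw [Finset.prod_eq_zero (Finset.mem_univ s) (cr_self _ _ _ _)]
  · have h1 := hg' (Sum.inl s)
    simp only [Sum.elim_inl] at h1
    rw [map_add, map_mul (eval (b s)) (lin (ℓ 0)), h1, eval_lin,
      mul_div_cancel₀ _ ((h.seven.1 s).2 0 (by decide)), add_neg_cancel]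
  · have h1 := hg' (Sum.inr (Sum.inl s))
    simp only [Sum.elim_inr, Sum.elim_inl] at h1
    rw [map_add, map_mul (eval (e s)) (lin (ℓ 0)), h1, eval_lin,
      mul_div_cancel₀ _ ((h.four.1 s).2 0 (by decide)), add_neg_cancel]
  · have h1 := hg' (Sum.inr (Sum.inr ()))
    simp only [Sum.elim_inr] at h1
    rw [map_add, map_mul (eval p) (lin (ℓ 0)), h1, eval_lin,
      mul_div_cancel₀ _ (h.one 0), add_neg_cancel]

end Pool.Agent.T2H40.MI
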