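import Pool.Agent.T2H40.MI.Lower

/-! The jumping numbers. -/

set_option autoImplicit false

namespace Pool.Agent.T2H40.MI

open MvPolynomial

variable {ℓ : Fin 3 → Fin 3 → ℂ} {a : Fin 10 → Fin 3 → ℂ} {b : Fin 7 → Fin 3 → ℂ}
  {e : Fin 4 → Fin 3 → ℂ} {p : Fin 3 → ℂ} {c : ℝ} {u : S}

theorem mem_J (h : IsGeneral ℓ a b e p) (hc : 0 < c) :
    u ∈ multiplierIdeal (idealOf (points a b e p)) c ↔
      (∀ wN ∈ weights, Cond c wN.1 wN.2 (sub (Matrix.of ℓ)⁻¹ u)) ∧
      ∀ q ∈ points a b e p, u ∈ idealOf {q} ^ (⌊c⌋₊ - 1) := by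
  rw [multiplier h hc]
  simp only [SetLike.mem_coe, Ideal.mem_inf, Submodule.mem_iInf]
  rw [mem_monomialIdeal h.lines hc.le]

theorem wv_le {w : Fin 3 → ℕ} {f : S} {m : Fin 3 →₀ ℕ} (hm : m ∈ f.support) :
    wv w f ≤ (wt w m : ℕ) := by
  have hf : f ≠ 0 := by
    rintro rfl
    simp at hm
  obtain ⟨n, hn⟩ := ENat.ne_top_iff_exists.1 (wv_ne_top (w := w) hf)
  rw [← hn]
  exact Nat.cast_le.2 (le_wv.1 hn.le m hm)

theorem jump_aux (h : IsGeneral ℓ a b e p) {f : S} (hf : f ∈ idealOf (points a b e p))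
    {w₀ : Fin 3 → ℕ} {N₀ : ℕ} (hw₀ : (w₀, N₀) ∈ weights)
    (hfw : wv w₀ (sub (Matrix.of ℓ)⁻¹ f) = N₀) {c₀ : ℝ} (hc₀ : c₀ < 2) (m : Fin 3 →₀ ℕ)
    (h1 : c₀ * N₀ = wt w₀ m + (w₀ 0 + w₀ 1 + w₀ 2 : ℕ))
    (h2 : ∀ wN ∈ weights, c₀ * wN.2 ≤ wt wN.1 m + (wN.1 0 + wN.1 1 + wN.1 2 : ℕ)) (j : ℕ)
    (hpos : 0 < c₀) :
    c₀ + j ∈ jumpingNumbers (idealOf (points a b e p)) := by
  have hc : 0 < c₀ + j := by positivity
  refine ⟨hc, fun c' hc' hlt heq => ?_⟩
  let F := sub (Matrix.of ℓ)⁻¹ f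
  have hF : F ≠ 0 := by
    intro h0
    change wv w₀ F = N₀ at hfw
    rw [h0, (wv w₀).map_zero] at hfw
    exact ENat.top_ne_natCast _ hfw
  have hu' : sub (Matrix.of ℓ)⁻¹ (sub (Matrix.of ℓ) (monomial m 1) * f ^ j) =
      monomial m 1 * F ^ j := by
    rw [map_mul, map_pow, inv_sub h.lines]
  have hval : ∀ w, wv w (sub (Matrix.of ℓ)⁻¹ (sub (Matrix.of ℓ) (monomial m 1) * f ^ j)) =
      (wt w m : ℕ) + j • wv w F := by
    intro w
    rw [hu', (wv w).map_mul, (wv w).map_pow, wv_monomial _ one_ne_zero]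
  have hmem : sub (Matrix.of ℓ) (monomial m 1) * f ^ j ∈
      multiplierIdeal (idealOf (points a b e p)) c' := by
    rw [mem_J h hc']
    constructor
    · intro wN hwN m' hm'
      have h3 := wv_le (w := wN.1) hm'
      rw [hval] at h3
      have h4 := weights_le h hf hwN
      have h5 : ((wt wN.1 m + j * wN.2 : ℕ) : ℕ∞) ≤ (wt wN.1 m' : ℕ) := by
        refine le_trans ?_ h3
        push_cast
        rw [nsmul_eq_mul]
        exact add_le_add_right (mul_le_mul_right h4 _) _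
      have h6 : wt wN.1 m + j * wN.2 ≤ wt wN.1 m' := Nat.cast_le.1 h5
      have h7 : (0 : ℝ) < wN.2 := by
        simp only [weights, List.mem_cons, List.not_mem_nil, or_false] at hwN
        rcases hwN with rfl | rfl | rfl | rfl | rfl | rfl | rfl <;> norm_num
      rw [sum_wt]
      have h8 := h2 wN hwN
      have h9 : c' * wN.2 < (c₀ + j) * wN.2 := mul_lt_mul_of_pos_right hlt h7
      have h10 : ((wt wN.1 m + j * wN.2 : ℕ) : ℝ) ≤ wt wN.1 m' := by exact_mod_cast h6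
      push_cast at h8 h10 ⊢
      linarith
    · intro q hq
      have h3 : ⌊c'⌋₊ - 1 ≤ j := by
        have h4 : ⌊c'⌋₊ < j + 2 := by
          rw [Nat.floor_lt hc'.le]
          push_cast
          linarith
        omega
      refine Ideal.mul_mem_left _ _ (Ideal.pow_le_pow_right h3 (Ideal.pow_mem_pow ?_ j))
      exact idealOf_mono (Set.singleton_subset_iff.2 hq) hf
  rw [← heq, mem_J h hc] at hmem
  have h3 := hmem.1 _ hw₀
  have hne : sub (Matrix.of ℓ)⁻¹ (sub (Matrix.of ℓ) (monomial m 1) * f ^ j) ≠ 0 := by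
    rw [hu']
    refine mul_ne_zero ?_ (pow_ne_zero _ hF)
    intro h0
    exact one_ne_zero (monomial_eq_zero.1 h0)
  obtain ⟨m', hm', hm''⟩ := exists_wv (w := w₀) hne
  have h4 := h3 m' hm'
  rw [hval, show wv w₀ F = N₀ from hfw] at hm''
  have h5 : wt w₀ m + j * N₀ = wt w₀ m' := by
    rw [nsmul_eq_mul] at hm''
    exact_mod_cast hm''
  rw [sum_wt, ← h5] at h4
  push_cast at h4 h1
  linarith

theorem le_val_cr (h : IsGeneral ℓ a b e p) {w : Fin 3 → ℕ} (hw : ∀ i, 1 ≤ w i) (i j : Fin 3)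
    (hij : i ≠ j) (hi : w i = 1) (q : Fin 3 → ℂ) (hq : ℓ j ⬝ᵥ q ≠ 0) :
    wv w (sub (Matrix.of ℓ)⁻¹ (lin (cr ℓ i j q))) = (1 : ℕ) := by
  have h1 : sub (Matrix.of ℓ)⁻¹ (lin (cr ℓ i j q)) =
      C (ℓ j ⬝ᵥ q) * X i - C (ℓ i ⬝ᵥ q) * X j := by
    have h2 := inv_lin h.lines i
    have h3 := inv_lin h.lines j
    change sub (Matrix.of ℓ)⁻¹ (lin (ℓ i)) = X i at h2
    change sub (Matrix.of ℓ)⁻¹ (lin (ℓ j)) = X j at h3
    rw [lin_cr, map_sub, map_mul, map_mul, sub_C, sub_C, h2, h3]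
  rw [h1]
  apply le_antisymm
  · have h2 : Finsupp.single i 1 ∈ (C (ℓ j ⬝ᵥ q) * X i - C (ℓ i ⬝ᵥ q) * X j : S).support := by
      rw [mem_support_iff, coeff_sub, coeff_C_mul, coeff_C_mul, coeff_X, coeff_X, if_pos rfl,
        if_neg, mul_zero, sub_zero, mul_one]
      · exact hq
      · intro h0
        exact hij (Finsupp.single_left_injective one_ne_zero h0).symm
    refine le_trans (wv_le h2) (Nat.cast_le.2 ?_)
    fin_cases i <;> simp [wt] at hi ⊢ <;> omega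
  · refine (wv w).map_le_sub ?_ ?_
    · refine le_trans ?_ (le_C_mul _ _)
      rw [wv_X]
      exact_mod_cast hw i
    · refine le_trans ?_ (le_C_mul _ _)
      rw [wv_X]
      exact_mod_cast hw j

theorem val_ℓ (h : IsGeneral ℓ a b e p) (w : Fin 3 → ℕ) (i : Fin 3) :
    ((wv w).comap (sub (Matrix.of ℓ)⁻¹ : S →+* S)) (lin (ℓ i)) = w i := by
  have h2 := inv_lin h.lines i
  change sub (Matrix.of ℓ)⁻¹ (lin (ℓ i)) = X i at h2
  rw [comap_val, h2, wv_X]

theorem w10 (h : IsGeneral ℓ a b e p) : ∃ f ∈ idealOf (points a b e p),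
    wv ![7, 1, 1] (sub (Matrix.of ℓ)⁻¹ f) = (10 : ℕ) := by
  obtain ⟨g, hg, hg'⟩ := f10_mem h
  refine ⟨_, hg', ?_⟩
  obtain ⟨v, hv⟩ : ∃ v, v = ((wv ![7, 1, 1]).comap (sub (Matrix.of ℓ)⁻¹ : S →+* S)) := ⟨_, rfl⟩
  have hval : ∀ f, wv ![7, 1, 1] (sub (Matrix.of ℓ)⁻¹ f) = v f := fun f => by rw [hv, comap_val]
  have h0 : v (lin (ℓ 0)) = (7 : ℕ) := by rw [hv, val_ℓ h]; rfl
  have h1 : v (lin (ℓ 1)) = (1 : ℕ) := by rw [hv, val_ℓ h]; rfl
  have h2 : v (lin (ℓ 2)) = (1 : ℕ) := by rw [hv, val_ℓ h]; rfl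
  have hmin : ∀ i, ((1 : ℕ) : ℕ∞) ≤ v (lin (ℓ i)) := by
    intro i
    fin_cases i
    · exact le_trans (by norm_num) h0.ge
    · exact h1.ge
    · exact h2.ge
  have hprod : v (∏ s, lin (cr ℓ 1 2 (a s))) = (10 * 1 : ℕ) :=
    prod_const fun s => by
      rw [← hval]
      exact le_val_cr h (by decide) 1 2 (by decide) rfl _ ((h.ten.1 s).2 2 (by decide))
  rw [hval, v.map_add_eq_of_lt_left, hprod]
  rw [hprod, v.map_mul, h0]
  refine lt_of_lt_of_le ?_ (add_le_add_right (hom_le h.lines hmin hg) _)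
  norm_cast

theorem w8 (h : IsGeneral ℓ a b e p) : ∃ f ∈ idealOf (points a b e p),
    wv ![1, 5, 1] (sub (Matrix.of ℓ)⁻¹ f) = (8 : ℕ) := by
  obtain ⟨g, hg, hg'⟩ := f8_mem h
  refine ⟨_, hg', ?_⟩
  obtain ⟨v, hv⟩ : ∃ v, v = ((wv ![1, 5, 1]).comap (sub (Matrix.of ℓ)⁻¹ : S →+* S)) := ⟨_, rfl⟩
  have hval : ∀ f, wv ![1, 5, 1] (sub (Matrix.of ℓ)⁻¹ f) = v f := fun f => by rw [hv, comap_val]
  have h0 : v (lin (ℓ 0)) = (1 : ℕ) := by rw [hv, val_ℓ h]; rfl
  have h1 : v (lin (ℓ 1)) = (5 : ℕ) := by rw [hv, val_ℓ h]; rfl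
  have h2 : v (lin (ℓ 2)) = (1 : ℕ) := by rw [hv, val_ℓ h]; rfl
  have hmin : ∀ i, ((1 : ℕ) : ℕ∞) ≤ v (lin (ℓ i)) := by
    intro i
    fin_cases i
    · exact h0.ge
    · exact le_trans (by norm_num) h1.ge
    · exact h2.ge
  have hprod : v (∏ s, lin (cr ℓ 0 2 (b s))) = (7 * 1 : ℕ) :=
    prod_const fun s => by
      rw [← hval]
      exact le_val_cr h (by decide) 0 2 (by decide) rfl _ ((h.seven.1 s).2 2 (by decide))
  rw [hval, v.map_mul, v.map_add_eq_of_lt_left, hprod, h0]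
  · norm_cast
  rw [hprod, v.map_mul, h1]
  refine lt_of_lt_of_le ?_ (add_le_add_right (hom_le h.lines hmin hg) _)
  norm_cast

theorem w6 (h : IsGeneral ℓ a b e p) : ∃ f ∈ idealOf (points a b e p),
    wv ![1, 1, 3] (sub (Matrix.of ℓ)⁻¹ f) = (6 : ℕ) := by
  obtain ⟨g, hg, hg'⟩ := f6_mem h
  refine ⟨_, hg', ?_⟩
  obtain ⟨v, hv⟩ : ∃ v, v = ((wv ![1, 1, 3]).comap (sub (Matrix.of ℓ)⁻¹ : S →+* S)) := ⟨_, rfl⟩
  have hval : ∀ f, wv ![1, 1, 3] (sub (Matrix.of ℓ)⁻¹ f) = v f := fun f => by rw [hv, comap_val]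
  have h0 : v (lin (ℓ 0)) = (1 : ℕ) := by rw [hv, val_ℓ h]; rfl
  have h1 : v (lin (ℓ 1)) = (1 : ℕ) := by rw [hv, val_ℓ h]; rfl
  have h2 : v (lin (ℓ 2)) = (3 : ℕ) := by rw [hv, val_ℓ h]; rfl
  have hmin : ∀ i, ((1 : ℕ) : ℕ∞) ≤ v (lin (ℓ i)) := by
    intro i
    fin_cases i
    · exact h0.ge
    · exact h1.ge
    · exact le_trans (by norm_num) h2.ge
  have hprod : v (∏ s, lin (cr ℓ 0 1 (e s))) = (4 * 1 : ℕ) :=
    prod_const fun s => by
      rw [← hval]
      exact le_val_cr h (by decide) 0 1 (by decide) rfl _ ((h.four.1 s).2 1 (by decide))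
  rw [hval, v.map_mul, v.map_mul, v.map_add_eq_of_lt_left, hprod, h0, h1]
  · norm_cast
  rw [hprod, v.map_mul, h2]
  refine lt_of_lt_of_le ?_ (add_le_add_right (hom_le h.lines hmin hg) _)
  norm_cast

theorem jump34 (h : IsGeneral ℓ a b e p) :
    (3 / 4 : ℝ) ∈ jumpingNumbers (idealOf (points a b e p)) := by
  refine ⟨by norm_num, fun c' hc' hlt heq => ?_⟩
  have hmem : (1 : S) ∈ multiplierIdeal (idealOf (points a b e p)) c' := by
    rw [mem_J h hc']
    constructor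
    · intro wN hwN m _
      have h0 : (0 : ℝ) ≤ m 0 := by positivity
      have h1 : (0 : ℝ) ≤ m 1 := by positivity
      have h2 : (0 : ℝ) ≤ m 2 := by positivity
      simp only [weights, List.mem_cons, List.not_mem_nil, or_false] at hwN
      rcases hwN with rfl | rfl | rfl | rfl | rfl | rfl | rfl <;>
        simp only [Fin.sum_univ_three, Matrix.cons_val_zero, Matrix.cons_val_one,
          Matrix.cons_val, Nat.cast_one, Nat.cast_ofNat] <;> linarith
    · intro q _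
      have h3 : ⌊c'⌋₊ = 0 := by
        rw [Nat.floor_eq_zero]
        linarith
      rw [h3]
      simp
  rw [← heq, mem_J h (by norm_num)] at hmem
  have h1 := hmem.1 (![1, 1, 1], 4) (by simp [weights]) 0 (by
    rw [map_one, mem_support_iff]
    simp)
  simp only [Fin.sum_univ_three, Matrix.cons_val_zero, Matrix.cons_val_one,
    Matrix.cons_val, Nat.cast_one, Nat.cast_ofNat, Finsupp.coe_zero, Pi.zero_apply,
    Nat.cast_zero] at h1
  norm_num at h1

/-- the monomial -/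
noncomputable def mo (i j k : ℕ) : Fin 3 →₀ ℕ := Finsupp.equivFunOnFinite.symm ![i, j, k]

theorem wt_mo (w : Fin 3 → ℕ) (i j k : ℕ) : wt w (mo i j k) = w 0 * i + w 1 * j + w 2 * k := rfl

theorem jump10 (h : IsGeneral ℓ a b e p) {n : ℕ} (hc : 1 ≤ c) (hn : 10 * c = n) :
    c ∈ jumpingNumbers (idealOf (points a b e p)) := by
  obtain ⟨f, hf, hf'⟩ := w10 h
  have h10 : 10 ≤ n := by
    have : (10 : ℝ) ≤ n := by linarith
    exact_mod_cast this
  obtain ⟨j, k, hk, hjk⟩ : ∃ j k, k < 10 ∧ n = 10 + k + 10 * j := ⟨(n - 10) / 10, (n - 10) % 10,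
    Nat.mod_lt _ (by norm_num), by omega⟩
  have hk' : (k : ℝ) < 10 := by exact_mod_cast hk
  have hk0 : (0 : ℝ) ≤ k := Nat.cast_nonneg k
  have e1 : c = (10 + k : ℝ) / 10 + j := by
    rw [hjk] at hn
    push_cast at hn
    linarith
  rw [e1]
  refine jump_aux h hf (w₀ := ![7, 1, 1]) (N₀ := 10) (by simp [weights]) hf' (by linarith)
    (mo 0 0 (k + 1)) ?_ ?_ j (by positivity)
  · rw [wt_mo]
    simp
    ring
  · intro wN hwN
    simp only [weights, List.mem_cons, List.not_mem_nil, or_false] at hwN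
    rcases hwN with rfl | rfl | rfl | rfl | rfl | rfl | rfl <;> rw [wt_mo] <;>
      simp <;> linarith

theorem jump8 (h : IsGeneral ℓ a b e p) {n : ℕ} (hc : 1 ≤ c) (hn : 8 * c = n) :
    c ∈ jumpingNumbers (idealOf (points a b e p)) := by
  obtain ⟨f, hf, hf'⟩ := w8 h
  have h10 : 8 ≤ n := by
    have : (8 : ℝ) ≤ n := by linarith
    exact_mod_cast this
  obtain ⟨j, k, hk, hjk⟩ : ∃ j k, k < 8 ∧ n = 8 + k + 8 * j := ⟨(n - 8) / 8, (n - 8) % 8,
    Nat.mod_lt _ (by norm_num), by omega⟩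
  have hk' : (k : ℝ) < 8 := by exact_mod_cast hk
  have hk0 : (0 : ℝ) ≤ k := Nat.cast_nonneg k
  have e1 : c = (8 + k : ℝ) / 8 + j := by
    rw [hjk] at hn
    push_cast at hn
    linarith
  rw [e1]
  refine jump_aux h hf (w₀ := ![1, 5, 1]) (N₀ := 8) (by simp [weights]) hf' (by linarith)
    (mo 1 0 k) ?_ ?_ j (by positivity)
  · rw [wt_mo]
    simp
    ring
  · intro wN hwN
    simp only [weights, List.mem_cons, List.not_mem_nil, or_false] at hwN
    rcases hwN with rfl | rfl | rfl | rfl | rfl | rfl | rfl <;> rw [wt_mo] <;>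
      simp <;> linarith

theorem jump6 (h : IsGeneral ℓ a b e p) {n : ℕ} (hc : 1 ≤ c) (hn : 6 * c = n) :
    c ∈ jumpingNumbers (idealOf (points a b e p)) := by
  obtain ⟨f, hf, hf'⟩ := w6 h
  have h10 : 6 ≤ n := by
    have : (6 : ℝ) ≤ n := by linarith
    exact_mod_cast this
  obtain ⟨j, k, hk, hjk⟩ : ∃ j k, k < 6 ∧ n = 6 + k + 6 * j := ⟨(n - 6) / 6, (n - 6) % 6,
    Nat.mod_lt _ (by norm_num), by omega⟩
  have hk' : (k : ℝ) < 6 := by exact_mod_cast hk
  have hk0 : (0 : ℝ) ≤ k := Nat.cast_nonneg k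
  have e1 : c = (6 + k : ℝ) / 6 + j := by
    rw [hjk] at hn
    push_cast at hn
    linarith
  rw [e1]
  refine jump_aux h hf (w₀ := ![1, 1, 3]) (N₀ := 6) (by simp [weights]) hf' (by linarith)
    (mo 1 k 0) ?_ ?_ j (by positivity)
  · rw [wt_mo]
    simp
    ring
  · intro wN hwN
    simp only [weights, List.mem_cons, List.not_mem_nil, or_false] at hwN
    rcases hwN with rfl | rfl | rfl | rfl | rfl | rfl | rfl <;> rw [wt_mo] <;>
      simp <;> linarith

theorem nonjump (h : IsGeneral ℓ a b e p) {c' : ℝ} (hc' : 0 < c') (hlt : c' < c)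
    (h1 : ∀ m : Fin 3 →₀ ℕ, (∀ wN ∈ weights, c' * wN.2 < ∑ i, (wN.1 i : ℝ) * (m i + 1)) →
      ∀ wN ∈ weights, c * wN.2 < ∑ i, (wN.1 i : ℝ) * (m i + 1))
    (h2 : ⌊c⌋₊ - 1 ≤ ⌊c'⌋₊ - 1) : c ∉ jumpingNumbers (idealOf (points a b e p)) := by
  rintro ⟨hc, hj⟩
  apply hj c' hc' hlt
  ext u
  rw [mem_J h hc, mem_J h hc']
  constructor
  · rintro ⟨h3, h4⟩
    refine ⟨fun wN hwN m hm => lt_of_le_of_lt ?_ (h3 wN hwN m hm), fun q hq => ?_⟩
    · exact mul_le_mul_of_nonneg_right hlt.le (Nat.cast_nonneg _)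
    · exact Ideal.pow_le_pow_right (Nat.sub_le_sub_right (Nat.floor_mono hlt.le) 1) (h4 q hq)
  · rintro ⟨h3, h4⟩
    refine ⟨fun wN hwN m hm => h1 m (fun wN' hwN' => h3 wN' hwN' m hm) wN hwN, fun q hq => ?_⟩
    exact Ideal.pow_le_pow_right h2 (h4 q hq)

theorem jumping (h : IsGeneral ℓ a b e p) :
    jumpingNumbers (idealOf (points a b e p)) =
      {3 / 4} ∪ {c : ℝ | 1 ≤ c ∧ ∃ n : ℕ, 10 * c = n ∨ 8 * c = n ∨ 6 * c = n} := by
  ext c
  constructor
  · intro hj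
    by_contra hcon
    simp only [Set.mem_union, Set.mem_singleton_iff, Set.mem_ofPred_eq, not_or, not_and,
      not_exists] at hcon
    obtain ⟨hc1, hc2⟩ := hcon
    have hc0 : 0 < c := hj.1
    rcases lt_or_gt_of_ne hc1 with hlt | hgt
    · refine nonjump h (c' := c / 2) (by positivity) (by linarith) ?_ ?_ hj
      · intro m _ wN hwN
        have h0 : (0 : ℝ) ≤ m 0 := by positivity
        have h1 : (0 : ℝ) ≤ m 1 := by positivity
        have h2 : (0 : ℝ) ≤ m 2 := by positivity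
        simp only [weights, List.mem_cons, List.not_mem_nil, or_false] at hwN
        rcases hwN with rfl | rfl | rfl | rfl | rfl | rfl | rfl <;>
          simp only [Fin.sum_univ_three, Matrix.cons_val_zero, Matrix.cons_val_one,
            Matrix.cons_val, Nat.cast_one, Nat.cast_ofNat] <;> linarith
      · rw [Nat.floor_eq_zero.2 (by linarith)]
        simp
    rcases lt_or_ge c 1 with hlt1 | hge1
    · refine nonjump h (c' := (3 / 4 + c) / 2) (by positivity) (by linarith) ?_ ?_ hj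
      · intro m hm wN hwN
        have h3 := hm (![1, 1, 1], 4) (by simp [weights])
        simp only [Fin.sum_univ_three, Matrix.cons_val_zero, Matrix.cons_val_one,
          Matrix.cons_val, Nat.cast_one, Nat.cast_ofNat] at h3
        have h4 : (0 : ℝ) < (m 0 + m 1 + m 2 : ℕ) := by
          push_cast
          linarith
        have h5 : 1 ≤ m 0 + m 1 + m 2 := by exact_mod_cast h4
        have h6 : (1 : ℝ) ≤ m 0 + m 1 + m 2 := by exact_mod_cast h5
        have h0 : (0 : ℝ) ≤ m 0 := by positivity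
        have h1 : (0 : ℝ) ≤ m 1 := by positivity
        have h2 : (0 : ℝ) ≤ m 2 := by positivity
        simp only [weights, List.mem_cons, List.not_mem_nil, or_false] at hwN
        rcases hwN with rfl | rfl | rfl | rfl | rfl | rfl | rfl <;>
          simp only [Fin.sum_univ_three, Matrix.cons_val_zero, Matrix.cons_val_one,
            Matrix.cons_val, Nat.cast_one, Nat.cast_ofNat] <;> linarith
      · rw [Nat.floor_eq_zero.2 hlt1]
        simp
    · have hno := hc2 hge1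
      have hfl : ∀ N : ℕ, 0 < N → (∀ n : ℕ, (N : ℝ) * c ≠ n) → (⌊c * N⌋₊ : ℝ) / N < c := by
        intro N hN hne
        have hN' : (0 : ℝ) < N := by exact_mod_cast hN
        rw [div_lt_iff₀ hN']
        refine lt_of_le_of_ne (Nat.floor_le (by positivity)) fun h0 => ?_
        exact hne _ (by rw [mul_comm]; exact h0.symm)
      have g10 := hfl 10 (by norm_num) (fun n hn => (hno n).1 (by exact_mod_cast hn))
      have g8 := hfl 8 (by norm_num) (fun n hn => (hno n).2.1 (by exact_mod_cast hn))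
      have g6 := hfl 6 (by norm_num) (fun n hn => (hno n).2.2 (by exact_mod_cast hn))
      have g4 := hfl 4 (by norm_num) (fun n hn => (hno (2 * n)).2.1 (by
        push_cast at hn ⊢
        linarith))
      obtain ⟨c', hc'⟩ : ∃ c', c' = max (max ((⌊c * (4 : ℕ)⌋₊ : ℝ) / (4 : ℕ))
        ((⌊c * (6 : ℕ)⌋₊ : ℝ) / (6 : ℕ))) (max ((⌊c * (8 : ℕ)⌋₊ : ℝ) / (8 : ℕ))
        ((⌊c * (10 : ℕ)⌋₊ : ℝ) / (10 : ℕ))) := ⟨_, rfl⟩
      have k4 : (⌊c * (4 : ℕ)⌋₊ : ℝ) / (4 : ℕ) ≤ c' := by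
        rw [hc']
        exact le_trans (le_max_left _ _) (le_max_left _ _)
      have k6 : (⌊c * (6 : ℕ)⌋₊ : ℝ) / (6 : ℕ) ≤ c' := by
        rw [hc']
        exact le_trans (le_max_right _ _) (le_max_left _ _)
      have k8 : (⌊c * (8 : ℕ)⌋₊ : ℝ) / (8 : ℕ) ≤ c' := by
        rw [hc']
        exact le_trans (le_max_left _ _) (le_max_right _ _)
      have k10 : (⌊c * (10 : ℕ)⌋₊ : ℝ) / (10 : ℕ) ≤ c' := by
        rw [hc']
        exact le_trans (le_max_right _ _) (le_max_right _ _)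
      have hlt : c' < c := by
        rw [hc']
        exact max_lt (max_lt g4 g6) (max_lt g8 g10)
      have hfloor : (⌊c⌋₊ : ℝ) ≤ c' := by
        refine le_trans ?_ k4
        rw [le_div_iff₀ (by norm_num)]
        have h3 : ⌊c⌋₊ * 4 ≤ ⌊c * (4 : ℕ)⌋₊ := by
          rw [Nat.le_floor_iff (by positivity)]
          have := Nat.floor_le hc0.le
          push_cast
          linarith
        exact_mod_cast h3
      have h1c : 1 ≤ ⌊c⌋₊ := by
        rw [Nat.one_le_floor_iff]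
        exact hge1
      have hc'0 : 0 < c' := by
        have : (1 : ℝ) ≤ ⌊c⌋₊ := by exact_mod_cast h1c
        linarith
      refine nonjump h hc'0 hlt ?_ ?_ hj
      · intro m hm wN hwN
        have h3 := hm wN hwN
        rw [sum_wt] at h3 ⊢
        rw [← Nat.floor_lt (by positivity)]
        have h4 : (⌊c * wN.2⌋₊ : ℝ) ≤ c' * wN.2 := by
          simp only [weights, List.mem_cons, List.not_mem_nil, or_false] at hwN
          rcases hwN with rfl | rfl | rfl | rfl | rfl | rfl | rfl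
          · exact (div_le_iff₀ (by norm_num)).1 k4
          · exact (div_le_iff₀ (by norm_num)).1 k10
          · exact (div_le_iff₀ (by norm_num)).1 k8
          · exact (div_le_iff₀ (by norm_num)).1 k6
          · exact (div_le_iff₀ (by norm_num)).1 k10
          · exact (div_le_iff₀ (by norm_num)).1 k10
          · exact (div_le_iff₀ (by norm_num)).1 k8
        have h5 := lt_of_le_of_lt h4 h3
        exact_mod_cast h5
      · have : ⌊c⌋₊ ≤ ⌊c'⌋₊ := (Nat.le_floor_iff hc'0.le).2 hfloor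
        omega
  · rintro (hc | ⟨hc, n, hn | hn | hn⟩)
    · rw [Set.mem_singleton_iff] at hc
      rw [hc]
      exact jump34 h
    · exact jump10 h hc hn
    · exact jump8 h hc hn
    · exact jump6 h hc hn

end Pool.Agent.T2H40.MI
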