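import Pool.Agent.T2H40.MI.Wv
import Pool.Agent.T2H40.MI.Defs

/-! Linear forms, linear substitutions, and log discrepancies. -/

set_option autoImplicit false

namespace Pool.Agent.T2H40.MI

open MvPolynomial

theorem lin_eq (r : Fin 3 → ℂ) : lin r = C (r 0) * X 0 + C (r 1) * X 1 + C (r 2) * X 2 := by
  rw [lin, Fin.sum_univ_three]

theorem lin_add (r s : Fin 3 → ℂ) : lin (r + s) = lin r + lin s := by
  simp only [lin_eq, Pi.add_apply, C_add]
  ring

theorem lin_sub (r s : Fin 3 → ℂ) : lin (r - s) = lin r - lin s := by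
  simp only [lin_eq, Pi.sub_apply, C_sub]
  ring

theorem lin_smul (c : ℂ) (r : Fin 3 → ℂ) : lin (c • r) = C c * lin r := by
  simp only [lin_eq, Pi.smul_apply, smul_eq_mul, C_mul]
  ring

theorem eval_lin (r q : Fin 3 → ℂ) : eval q (lin r) = r ⬝ᵥ q := by
  simp only [lin_eq, map_add, map_mul, eval_C, eval_X, dotProduct, Fin.sum_univ_three]

theorem lin_single (i : Fin 3) : lin (Pi.single i 1) = X i := by
  classical
  rw [lin, Finset.sum_eq_single i]
  · simp
  · intro j _ hj
    simp [hj]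
  · intro h
    exact absurd (Finset.mem_univ i) h

theorem pderiv_lin (r : Fin 3 → ℂ) (i : Fin 3) : pderiv i (lin r) = C (r i) := by
  classical
  rw [lin, map_sum, Finset.sum_eq_single i]
  · rw [pderiv_C_mul, pderiv_X_self, mul_one]
  · intro j _ hj
    rw [pderiv_C_mul, pderiv_X_of_ne hj, mul_zero]
  · intro h
    exact absurd (Finset.mem_univ i) h

theorem coeff_lin (r : Fin 3 → ℂ) (i : Fin 3) : coeff (Finsupp.single i 1) (lin r) = r i := by
  classical
  rw [lin, coeff_sum, Finset.sum_eq_single i]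
  · simp
  · intro j _ hj
    rw [coeff_C_mul, coeff_X, if_neg, mul_zero]
    intro h
    exact hj (Finsupp.single_left_injective one_ne_zero h)
  · intro h
    exact absurd (Finset.mem_univ i) h

theorem lin_ne_zero {r : Fin 3 → ℂ} (hr : r ≠ 0) : lin r ≠ 0 := by
  intro h
  apply hr
  funext i
  have := coeff_lin r i
  rw [h] at this
  simpa using this.symm

theorem lin_hom (r : Fin 3 → ℂ) : (lin r).IsHomogeneous 1 := by
  rw [lin]
  refine IsHomogeneous.sum _ _ _ fun i _ => ?_
  simpa using (isHomogeneous_C (Fin 3) (r i)).mul (isHomogeneous_X ℂ i)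

/-- the linear substitution -/
noncomputable def sub (M : Matrix (Fin 3) (Fin 3) ℂ) : S →ₐ[ℂ] S := aeval fun i => lin (M i)

theorem sub_X (M : Matrix (Fin 3) (Fin 3) ℂ) (i : Fin 3) : sub M (X i) = lin (M i) := by
  rw [sub, aeval_X]

theorem sub_C (M : Matrix (Fin 3) (Fin 3) ℂ) (c : ℂ) : sub M (C c) = C c := by
  rw [sub, aeval_C]
  rfl

theorem sub_lin (M : Matrix (Fin 3) (Fin 3) ℂ) (r : Fin 3 → ℂ) :
    sub M (lin r) = lin (Matrix.vecMul r M) := by
  rw [lin_eq r]
  simp only [map_add, map_mul, sub_C, sub_X]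
  simp only [lin_eq, Matrix.vecMul, dotProduct, Fin.sum_univ_three, C_add, C_mul]
  ring

theorem sub_sub (M N : Matrix (Fin 3) (Fin 3) ℂ) (f : S) : sub M (sub N f) = sub (N * M) f := by
  have h : (sub M).comp (sub N) = sub (N * M) := by
    apply MvPolynomial.algHom_ext
    intro i
    rw [AlgHom.comp_apply, sub_X, sub_lin, sub_X]
    rfl
  rw [← h]
  rfl

theorem sub_one (f : S) : sub 1 f = f := by
  have h : sub 1 = AlgHom.id ℂ S := by
    apply MvPolynomial.algHom_ext
    intro i
    rw [sub_X, AlgHom.id_apply, ← lin_single i]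
    congr 1
    funext j
    rw [Matrix.one_apply, Pi.single_apply]
    simp only [eq_comm]
  rw [h]
  rfl

theorem eval_sub (M : Matrix (Fin 3) (Fin 3) ℂ) (q : Fin 3 → ℂ) (f : S) :
    eval q (sub M f) = eval (Matrix.mulVec M q) f := by
  have h : (eval q).comp (sub M : S →+* S) = eval (Matrix.mulVec M q) := by
    apply MvPolynomial.ringHom_ext
    · intro c
      rw [RingHom.comp_apply, RingHom.coe_coe, sub_C, eval_C, eval_C]
    · intro i
      rw [RingHom.comp_apply, RingHom.coe_coe, sub_X, eval_lin, eval_X]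
      rfl
  rw [← h]
  rfl

theorem sub_hom (M : Matrix (Fin 3) (Fin 3) ℂ) {f : S} {d : ℕ} (hf : f.IsHomogeneous d) :
    (sub M f).IsHomogeneous d := by
  have h := hf.eval₂ (C : ℂ →+* S) (fun i => lin (M i)) (n := 1)
    (fun r => isHomogeneous_C _ _) (fun i => lin_hom _)
  rw [one_mul] at h
  exact h

/-- lower bounds for a valuation of an expression in three elements -/
theorem exists_le (v : AddValuation S ℕ∞) (g : Fin 3 → S)
    {U : S} (hU : U ≠ 0) {α : Fin 3 → ℕ} (hα : ∀ i, (α i : ℕ∞) ≤ v (g i)) :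
    ∃ m ∈ U.support, ((wt α m : ℕ) : ℕ∞) ≤ v (aeval g U) := by
  obtain ⟨m, hm, hmin⟩ := Finset.exists_min_image U.support (wt α)
    (Finset.nonempty_iff_ne_empty.2 (by simpa using hU))
  refine ⟨m, hm, ?_⟩
  rw [aeval_def, eval₂_eq']
  refine v.map_le_sum fun m' hm' => ?_
  refine le_trans (Nat.cast_le.2 (hmin m' hm')) ?_
  rw [v.map_mul]
  refine le_trans ?_ le_add_self
  rw [Fin.prod_univ_three, v.map_mul, v.map_mul,
    v.map_pow, v.map_pow, v.map_pow]
  unfold wt
  push_cast
  have h : ∀ i, ((α i : ℕ∞) * (m' i : ℕ∞)) ≤ m' i • v (g i) := fun i => by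
    rw [nsmul_eq_mul, mul_comm]
    exact mul_le_mul_right (hα i) _
  exact add_le_add (add_le_add (h 0) (h 1)) (h 2)

end Pool.Agent.T2H40.MI
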