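import Pool.Agent.T2H40.MI.Elem
import Pool.Agent.T2H40.MI.Arith

/-! The other inclusion. -/

set_option autoImplicit false

namespace Pool.Agent.T2H40.MI

open MvPolynomial

variable {v : AddValuation S ℕ∞}

theorem fin_val (hv : IsDivisorial v) {f : S} (hf : f ≠ 0) : ∃ n : ℕ, v f = n := by
  obtain ⟨n, hn⟩ := ENat.ne_top_iff_exists.1 (hv.finite f hf)
  exact ⟨n, hn.symm⟩

/-- what we have to find for the valuation `v` -/
def Goal (v : AddValuation S ℕ∞) (I : Ideal S) (c : ℝ) (u : S) : Prop :=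
  ∃ a : ℕ, LogDiscGE v a ∧ ∃ f ∈ I, f ≠ 0 ∧ c * (v f).toNat < (v u).toNat + a

theorem finish (hv : IsDivisorial v) {I : Ideal S} {c : ℝ} {u : S} (hu : u ≠ 0)
    {M : Matrix (Fin 3) (Fin 3) ℂ} (hM : M.det ≠ 0) {x y z : ℕ} (hx : v (lin (M 0)) = x)
    (hy : v (lin (M 1)) = y) (hz : v (lin (M 2)) = z) {f : S} (hf : f ∈ I) {n : ℕ} (hn : v f = n)
    (har : ∀ m ∈ (sub M⁻¹ u).support,
      c * n < (x : ℝ) * (m 0 + 1) + y * (m 1 + 1) + z * (m 2 + 1)) : Goal v I c u := by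
  refine ⟨x + y + z, logDisc_lin M hM (by rw [hx, hy, hz]; norm_cast), f, hf, ?_, ?_⟩
  · rintro rfl
    rw [v.map_zero] at hn
    exact ENat.top_ne_natCast _ hn
  · obtain ⟨k, hk⟩ := fin_val hv hu
    obtain ⟨m, hm, hm'⟩ := exists_le v (fun i => lin (M i)) (inv_ne hM hu) (α := ![x, y, z])
      (by
        intro i
        fin_cases i
        · exact hx.ge
        · exact hy.ge
        · exact hz.ge)
    have e1 : aeval (fun i => lin (M i)) (sub M⁻¹ u) = u := sub_inv hM u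
    rw [e1, hk] at hm'
    have h1 : x * m 0 + y * m 1 + z * m 2 ≤ k := Nat.cast_le.1 hm'
    have h2 := har m hm
    have h3 : (x : ℝ) * m 0 + y * m 1 + z * m 2 ≤ k := by exact_mod_cast h1
    rw [hn, hk]
    simp only [ENat.toNat_natCast]
    push_cast
    linarith

theorem prod_val {ι : Type} (A : Finset ι) (f : ι → S) :
    v (∏ i ∈ A, f i) = ∑ i ∈ A, v (f i) := by
  classical
  induction A using Finset.induction_on with
  | empty => simp
  | insert i A hi ih => rw [Finset.prod_insert hi, Finset.sum_insert hi, v.map_mul, ih]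

theorem val_C_mul {c : ℂ} (hc : c ≠ 0) (f : S) : v (C c * f) = v f := by
  rw [v.map_mul, val_C hc, zero_add]

theorem le_C_mul (c : ℂ) (f : S) : v f ≤ v (C c * f) := by
  rw [v.map_mul]
  exact le_add_self

variable {ℓ : Fin 3 → Fin 3 → ℂ} {a : Fin 10 → Fin 3 → ℂ} {b : Fin 7 → Fin 3 → ℂ}
  {e : Fin 4 → Fin 3 → ℂ} {p : Fin 3 → ℂ}

theorem lin_cr (i j : Fin 3) (q : Fin 3 → ℂ) :
    lin (cr ℓ i j q) = C (ℓ j ⬝ᵥ q) * lin (ℓ i) - C (ℓ i ⬝ᵥ q) * lin (ℓ j) := by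
  rw [cr, lin_sub, lin_smul, lin_smul]

theorem cr_val1 {i j : Fin 3} {q : Fin 3 → ℂ} {n : ℕ} (hi : (n : ℕ∞) < v (lin (ℓ i)))
    (hj : v (lin (ℓ j)) = n) (hq : ℓ i ⬝ᵥ q ≠ 0) : v (lin (cr ℓ i j q)) = n := by
  have h1 : v (C (ℓ i ⬝ᵥ q) * lin (ℓ j)) = n := by rw [val_C_mul hq, hj]
  rw [lin_cr, v.map_sub_swap, v.map_sub_eq_of_lt_left, h1]
  rw [h1]
  exact lt_of_lt_of_le hi (le_C_mul _ _)

theorem cr_val2 {i j : Fin 3} {q : Fin 3 → ℂ} {n : ℕ} (hj : (n : ℕ∞) < v (lin (ℓ j)))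
    (hi : v (lin (ℓ i)) = n) (hq : ℓ j ⬝ᵥ q ≠ 0) : v (lin (cr ℓ i j q)) = n := by
  have h1 : v (C (ℓ j ⬝ᵥ q) * lin (ℓ i)) = n := by rw [val_C_mul hq, hi]
  rw [lin_cr, v.map_sub_eq_of_lt_left, h1]
  rw [h1]
  exact lt_of_lt_of_le hj (le_C_mul _ _)

theorem le_cr {i j : Fin 3} {q : Fin 3 → ℂ} {n : ℕ} (hi : (n : ℕ∞) ≤ v (lin (ℓ i)))
    (hj : (n : ℕ∞) ≤ v (lin (ℓ j))) : (n : ℕ∞) ≤ v (lin (cr ℓ i j q)) := by
  rw [lin_cr]
  exact v.map_le_sub (le_trans hi (le_C_mul _ _)) (le_trans hj (le_C_mul _ _))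

theorem hom_le (hℓ : (Matrix.of ℓ).det ≠ 0) {n : ℕ} (hn : ∀ i, (n : ℕ∞) ≤ v (lin (ℓ i)))
    {g : S} {D : ℕ} (hg : g.IsHomogeneous D) : ((D * n : ℕ) : ℕ∞) ≤ v g := by
  by_cases hg0 : g = 0
  · rw [hg0, v.map_zero]
    exact le_top
  obtain ⟨m, hm, hm'⟩ := exists_le v (fun i => lin (ℓ i)) (inv_ne hℓ hg0) (α := fun _ => n) hn
  have e1 : aeval (fun i => lin (ℓ i)) (sub (Matrix.of ℓ)⁻¹ g) = g := sub_inv hℓ g
  rw [e1] at hm'
  refine le_trans (Nat.cast_le.2 ?_) hm'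
  rw [← hom_deg (sub_hom _ hg) hm, wt]
  nlinarith

theorem row_ne {M : Matrix (Fin 3) (Fin 3) ℂ} (hM : M.det ≠ 0) (i : Fin 3) : lin (M i) ≠ 0 :=
  lin_ne_zero fun h0 => hM (Matrix.det_eq_zero_of_row_eq_zero i fun k => by rw [h0]; rfl)

theorem exists_special (hv : IsDivisorial v) (hℓ : (Matrix.of ℓ).det ≠ 0) (i j k : Fin 3)
    (hji : j ≠ i) (hki : k ≠ i) (hall : ∀ l, l = i ∨ l = j ∨ l = k)
    {N : ℕ} {q : Fin (N + 1) → Fin 3 → ℂ} (hq : OnLine ℓ i q)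
    (hne : ∀ s, lin (cr ℓ j k (q s)) ≠ 0) {n : ℕ}
    (hj : v (lin (ℓ j)) = n) (hk : v (lin (ℓ k)) = n) :
    ∃ s₀, ∃ δ : ℕ, v (lin (cr ℓ j k (q s₀))) = (n + δ : ℕ) ∧
      v (∏ s, lin (cr ℓ j k (q s))) = ((N + 1) * n + δ : ℕ) := by
  classical
  have key : ∃ s₀, ∀ s, s ≠ s₀ → v (lin (cr ℓ j k (q s))) = n := by
    by_cases h1 : ∀ s, v (lin (cr ℓ j k (q s))) = n
    · exact ⟨0, fun s _ => h1 s⟩
    push Not at h1
    obtain ⟨s₀, h0⟩ := h1
    refine ⟨s₀, fun s hs => ?_⟩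
    by_contra hcon
    have g0 : (n : ℕ∞) < v (lin (cr ℓ j k (q s₀))) :=
      lt_of_le_of_ne (le_cr hj.ge hk.ge) (Ne.symm h0)
    have g1 : (n : ℕ∞) < v (lin (cr ℓ j k (q s))) :=
      lt_of_le_of_ne (le_cr hj.ge hk.ge) (Ne.symm hcon)
    have h2 := cr_ne hℓ i j k hji hki hall hq s s₀ hs
    have h3 : C (cr ℓ j k (q s) ⬝ᵥ q s₀) * lin (ℓ k) = C (ℓ k ⬝ᵥ q s₀) * lin (cr ℓ j k (q s)) -
        C (ℓ k ⬝ᵥ q s) * lin (cr ℓ j k (q s₀)) := by
      rw [cr_dot, lin_cr, lin_cr]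
      simp only [C_sub, C_mul]
      ring
    have h4 : (n : ℕ∞) < v (C (cr ℓ j k (q s) ⬝ᵥ q s₀) * lin (ℓ k)) := by
      rw [h3, sub_eq_add_neg]
      apply v.map_lt_add
      · exact lt_of_lt_of_le g1 (le_C_mul _ _)
      · rw [v.map_neg]
        exact lt_of_lt_of_le g0 (le_C_mul _ _)
    rw [val_C_mul h2, hk] at h4
    exact lt_irrefl _ h4
  obtain ⟨s₀, hs₀⟩ := key
  obtain ⟨k₀, hk₀⟩ := fin_val hv (hne s₀)
  have h5 : n ≤ k₀ := by
    have := le_cr (q := q s₀) hj.ge hk.ge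
    rw [hk₀] at this
    exact Nat.cast_le.1 this
  obtain ⟨δ, rfl⟩ := Nat.exists_eq_add_of_le h5
  refine ⟨s₀, δ, hk₀, ?_⟩
  rw [prod_val, ← Finset.add_sum_erase _ _ (Finset.mem_univ s₀), hk₀,
    Finset.sum_congr rfl (fun s hs => hs₀ s (Finset.ne_of_mem_erase hs)), Finset.sum_const,
    Finset.card_erase_of_mem (Finset.mem_univ _), Finset.card_univ, Fintype.card_fin]
  simp only [Nat.add_sub_cancel, nsmul_eq_mul]
  push_cast
  ring

theorem single (hv : IsDivisorial v) {I : Ideal S} {c : ℝ} {u : S} (hu : u ≠ 0)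
    {M : Matrix (Fin 3) (Fin 3) ℂ} (hM : M.det ≠ 0) {n s δ κ : ℕ}
    (h0 : v (lin (M 0)) = (n + s : ℕ)) (h1 : v (lin (M 1)) = (n + δ : ℕ))
    (h2 : v (lin (M 2)) = n) (hs : 0 < s) (hκ : 0 < κ)
    (E : Cond c ![1, 1, 1] 4 (sub M⁻¹ u)) (L : Cond c ![κ + 1, 1, 1] (κ + 4) (sub M⁻¹ u))
    (P : Cond c ![1, 1, 0] 1 (sub M⁻¹ u))
    {f₄ fN : S} (hf₄ : f₄ ∈ I) (hf₄' : v f₄ = (4 * n + s : ℕ)) (hfN : fN ∈ I)
    (hfN' : δ < s → v fN = ((κ + 4) * n + δ : ℕ)) : Goal v I c u := by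
  have hP : ∀ m ∈ (sub M⁻¹ u).support, (0 : ℝ) < (m 0 + 1 : ℝ) ∧ (0 : ℝ) < (m 1 + 1 : ℝ) ∧
      c * 4 < (m 0 + 1 : ℝ) + (m 1 + 1) + (m 2 + 1) ∧
      c * (κ + 4) < (κ + 1) * (m 0 + 1 : ℝ) + (m 1 + 1) + (m 2 + 1) ∧
      c < (m 0 + 1 : ℝ) + (m 1 + 1) := by
    intro m hm
    have h3 := E m hm
    have h4 := L m hm
    have h5 := P m hm
    simp only [Fin.sum_univ_three, Matrix.cons_val_zero, Matrix.cons_val_one, Matrix.cons_val,
      Nat.cast_add, Nat.cast_one, Nat.cast_zero, Nat.cast_ofNat] at h3 h4 h5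
    exact ⟨by positivity, by positivity, by linarith, by linarith, by linarith⟩
  have hκ' : (0 : ℝ) < κ := by exact_mod_cast hκ
  have hs' : (0 : ℝ) < s := by exact_mod_cast hs
  by_cases hc : (s : ℝ) - δ ≤ κ * n
  · refine finish hv hu hM h0 h1 h2 hf₄ hf₄' fun m hm => ?_
    obtain ⟨g1, g2, g3, g4, g5⟩ := hP m hm
    have := (arS hκ' g1 g2 (Nat.cast_nonneg n) hs' (Nat.cast_nonneg δ) g3 g4 g5).1 hc
    push_cast
    linarith
  · have hlt : δ < s := by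
      by_contra hcon
      apply hc
      have : (s : ℝ) ≤ δ := by exact_mod_cast not_lt.1 hcon
      have h3 : (0 : ℝ) ≤ κ * n := by positivity
      linarith
    refine finish hv hu hM h0 h1 h2 hfN (hfN' hlt) fun m hm => ?_
    obtain ⟨g1, g2, g3, g4, g5⟩ := hP m hm
    have := (arS hκ' g1 g2 (Nat.cast_nonneg n) hs' (Nat.cast_nonneg δ) g3 g4 g5).2 hc
    push_cast
    linarith

/-- the change of the coordinates in the conditions -/
theorem cond_change {c : ℝ} (hc : 0 ≤ c) {u : S} {L T M : Matrix (Fin 3) (Fin 3) ℂ}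
    (hL : L.det ≠ 0) (hM : M.det ≠ 0) (hT : T * M = L) {w w' : Fin 3 → ℕ}
    (hw : ∀ i j, T i j ≠ 0 → w i ≤ w' j) (hsum : w 0 + w 1 + w 2 = w' 0 + w' 1 + w' 2) {N : ℕ}
    (h : Cond c w N (sub L⁻¹ u)) : Cond c w' N (sub M⁻¹ u) := by
  rw [cond_iff hc] at h ⊢
  have e1 : bd c w' N = bd c w N := by rw [bd, bd, hsum]
  have e2 : sub M⁻¹ u = sub T (sub L⁻¹ u) := by
    have h1 : sub M⁻¹ (sub L (sub L⁻¹ u)) = sub M⁻¹ u := by rw [sub_inv hL]
    rw [← h1, sub_sub, ← hT, Matrix.mul_assoc, Matrix.mul_nonsing_inv M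
      (isUnit_iff_ne_zero.2 hM), Matrix.mul_one]
  rw [e1, e2]
  exact le_trans h (wv_sub hw _)

theorem cond_pt {c : ℝ} (hc : 0 ≤ c) {u : S} {M : Matrix (Fin 3) (Fin 3) ℂ} (hM : M.det ≠ 0)
    {q : Fin 3 → ℂ} (hq : q ≠ 0) (h0 : M 0 ⬝ᵥ q = 0) (h1 : M 1 ⬝ᵥ q = 0)
    (hu : u ∈ idealOf {q} ^ (⌊c⌋₊ - 1)) : Cond c ![1, 1, 0] 1 (sub M⁻¹ u) := by
  rw [cond_iff hc]
  refine le_trans (Nat.cast_le.2 ?_) (pt_pow hM hq h0 h1 _ hu)
  simp [bd]

/-- transformation matrix -/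
noncomputable def trA (ℓ : Fin 3 → Fin 3 → ℂ) (q : Fin 3 → ℂ) : Matrix (Fin 3) (Fin 3) ℂ :=
  !![1, 0, 0; 0, (ℓ 2 ⬝ᵥ q)⁻¹, (ℓ 1 ⬝ᵥ q) / (ℓ 2 ⬝ᵥ q); 0, 0, 1]

theorem trA_mul {q : Fin 3 → ℂ} (hq : ℓ 2 ⬝ᵥ q ≠ 0) : trA ℓ q * frA ℓ q = Matrix.of ℓ := by
  ext i j
  rw [Matrix.mul_apply, Fin.sum_univ_three]
  fin_cases i
  · simp [trA, frA]
  · simp [trA, frA, cr]
    field_simp
    ring
  · simp [trA, frA]

/-- transformation matrix -/
noncomputable def trB (ℓ : Fin 3 → Fin 3 → ℂ) (q : Fin 3 → ℂ) : Matrix (Fin 3) (Fin 3) ℂ :=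
  !![0, (ℓ 2 ⬝ᵥ q)⁻¹, (ℓ 0 ⬝ᵥ q) / (ℓ 2 ⬝ᵥ q); 1, 0, 0; 0, 0, 1]

theorem trB_mul {q : Fin 3 → ℂ} (hq : ℓ 2 ⬝ᵥ q ≠ 0) : trB ℓ q * frB ℓ q = Matrix.of ℓ := by
  ext i j
  rw [Matrix.mul_apply, Fin.sum_univ_three]
  fin_cases i
  · simp [trB, frB, cr]
    field_simp
    ring
  · simp [trB, frB]
  · simp [trB, frB]

/-- transformation matrix -/
noncomputable def trC (ℓ : Fin 3 → Fin 3 → ℂ) (q : Fin 3 → ℂ) : Matrix (Fin 3) (Fin 3) ℂ :=
  !![0, (ℓ 1 ⬝ᵥ q)⁻¹, (ℓ 0 ⬝ᵥ q) / (ℓ 1 ⬝ᵥ q); 0, 0, 1; 1, 0, 0]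

theorem trC_mul {q : Fin 3 → ℂ} (hq : ℓ 1 ⬝ᵥ q ≠ 0) : trC ℓ q * frC ℓ q = Matrix.of ℓ := by
  ext i j
  rw [Matrix.mul_apply, Fin.sum_univ_three]
  fin_cases i
  · simp [trC, frC, cr]
    field_simp
    ring
  · simp [trC, frC]
  · simp [trC, frC]

/-- transformation matrix -/
noncomputable def trP (ℓ : Fin 3 → Fin 3 → ℂ) (q : Fin 3 → ℂ) : Matrix (Fin 3) (Fin 3) ℂ :=
  !![(ℓ 2 ⬝ᵥ q)⁻¹, 0, (ℓ 0 ⬝ᵥ q) / (ℓ 2 ⬝ᵥ q); 0, (ℓ 2 ⬝ᵥ q)⁻¹, (ℓ 1 ⬝ᵥ q) / (ℓ 2 ⬝ᵥ q); 0, 0, 1]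

theorem trP_mul {q : Fin 3 → ℂ} (hq : ℓ 2 ⬝ᵥ q ≠ 0) : trP ℓ q * frP ℓ q = Matrix.of ℓ := by
  ext i j
  rw [Matrix.mul_apply, Fin.sum_univ_three]
  fin_cases i
  · simp [trP, frP, cr]
    field_simp
    ring
  · simp [trP, frP, cr]
    field_simp
    ring
  · simp [trP, frP]

/-- the data of the proof -/
structure Ctx (ℓ : Fin 3 → Fin 3 → ℂ) (a : Fin 10 → Fin 3 → ℂ) (b : Fin 7 → Fin 3 → ℂ)
    (e : Fin 4 → Fin 3 → ℂ) (p : Fin 3 → ℂ) (c : ℝ) (u : S) (v : AddValuation S ℕ∞) : Prop where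
  h : IsGeneral ℓ a b e p
  hc : 0 ≤ c
  hu : u ≠ 0
  hv : IsDivisorial v
  mon : ∀ wN ∈ weights, Cond c wN.1 wN.2 (sub (Matrix.of ℓ)⁻¹ u)
  pt : ∀ q ∈ points a b e p, u ∈ idealOf {q} ^ (⌊c⌋₊ - 1)

variable {c : ℝ} {u : S}

theorem f4_val {x y z n : ℕ} (hx : v (lin (ℓ 0)) = x)
    (hy : v (lin (ℓ 1)) = y) (hz : v (lin (ℓ 2)) = z) {r : Fin 3 → ℂ} (hr : v (lin r) = n) :
    v (lin (ℓ 0) * lin (ℓ 1) * lin (ℓ 2) * lin r) = (x + y + z + n : ℕ) := by
  rw [v.map_mul, v.map_mul, v.map_mul, hx, hy, hz, hr]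
  norm_cast

theorem caseA3 (H : Ctx ℓ a b e p c u v) {n s : ℕ} (hs : 0 < s)
    (hx : v (lin (ℓ 0)) = (n + s : ℕ)) (hy : v (lin (ℓ 1)) = n) (hz : v (lin (ℓ 2)) = n) :
    Goal v (idealOf (points a b e p)) c u := by
  have h := H.h
  obtain ⟨s₀, δ, hδ, hprod⟩ := exists_special H.hv h.lines 0 1 2 (by decide) (by decide)
    (by decide) h.ten (fun s => row_ne (frA_ne h s) 1) hy hz
  obtain ⟨g, hg, hg'⟩ := f10_mem h
  have hlt : (n : ℕ∞) < v (lin (ℓ 0)) := by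
    rw [hx]
    exact_mod_cast (by omega)
  have hr := cr_val1 (q := p) hlt hy (h.one 0)
  have hzq : ℓ 2 ⬝ᵥ a s₀ ≠ 0 := (h.ten.1 s₀).2 2 (by decide)
  have hp := frame h (q := a s₀) (by simp [points])
  have hmin : ∀ i, (n : ℕ∞) ≤ v (lin (ℓ i)) := by
    intro i
    fin_cases i
    · exact hlt.le
    · exact hy.ge
    · exact hz.ge
  refine single H.hv H.hu (frA_ne h s₀) (κ := 6) hx hδ hz hs (by norm_num) ?_ ?_ ?_
    (f4_mem h (cr_self ℓ 0 1 p)) ?_ hg' ?_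
  · refine cond_change H.hc h.lines (frA_ne h s₀) (trA_mul hzq) ?_ rfl
      (H.mon (![1, 1, 1], 4) (by simp [weights]))
    intro i j _
    fin_cases i <;> fin_cases j <;> simp
  · refine cond_change H.hc h.lines (frA_ne h s₀) (trA_mul hzq) ?_ rfl
      (H.mon (![7, 1, 1], 10) (by simp [weights]))
    intro i j hij
    fin_cases i <;> fin_cases j <;> simp [trA] at hij ⊢
  · exact cond_pt H.hc (frA_ne h s₀) hp.1 (h.ten.1 s₀).1 (cr_self ℓ 1 2 _)
      (H.pt _ (by simp [points]))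
  · rw [f4_val hx hy hz hr]
    congr 1
    ring
  · intro hδs
    rw [v.map_add_eq_of_lt_left, hprod]
    rw [hprod, v.map_mul, hx]
    refine lt_of_lt_of_le ?_ (add_le_add_right (hom_le h.lines hmin hg) _)
    norm_cast
    omega

theorem caseB2 (H : Ctx ℓ a b e p c u v) {n s : ℕ} (hs : 0 < s)
    (hx : v (lin (ℓ 0)) = n) (hy : v (lin (ℓ 1)) = (n + s : ℕ)) (hz : v (lin (ℓ 2)) = n) :
    Goal v (idealOf (points a b e p)) c u := by
  have h := H.h
  obtain ⟨s₀, δ, hδ, hprod⟩ := exists_special H.hv h.lines 1 0 2 (by decide) (by decide)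
    (by decide) h.seven (fun s => row_ne (frB_ne h s) 1) hx hz
  obtain ⟨g, hg, hg'⟩ := f8_mem h
  have hlt : (n : ℕ∞) < v (lin (ℓ 1)) := by
    rw [hy]
    exact_mod_cast (by omega)
  have hr := cr_val1 (q := p) hlt hx (h.one 1)
  have hzq : ℓ 2 ⬝ᵥ b s₀ ≠ 0 := (h.seven.1 s₀).2 2 (by decide)
  have hp := frame h (q := b s₀) (by simp [points])
  have hmin : ∀ i, (n : ℕ∞) ≤ v (lin (ℓ i)) := by
    intro i
    fin_cases i
    · exact hx.ge
    · exact hlt.le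
    · exact hz.ge
  refine single H.hv H.hu (frB_ne h s₀) (κ := 4) hy hδ hz hs (by norm_num) ?_ ?_ ?_
    (f4_mem h (cr_self ℓ 1 0 p)) ?_ hg' ?_
  · refine cond_change H.hc h.lines (frB_ne h s₀) (trB_mul hzq) ?_ rfl
      (H.mon (![1, 1, 1], 4) (by simp [weights]))
    intro i j _
    fin_cases i <;> fin_cases j <;> simp
  · refine cond_change (w := ![1, 5, 1]) (w' := ![4 + 1, 1, 1]) H.hc h.lines (frB_ne h s₀) (trB_mul hzq) ?_ rfl
      (H.mon (![1, 5, 1], 8) (by simp [weights]))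
    intro i j hij
    fin_cases i <;> fin_cases j <;> simp [trB] at hij ⊢
  · exact cond_pt H.hc (frB_ne h s₀) hp.1 (h.seven.1 s₀).1 (cr_self ℓ 0 2 _)
      (H.pt _ (by simp [points]))
  · rw [f4_val hx hy hz hr]
    congr 1
    ring
  · intro hδs
    rw [v.map_mul, v.map_add_eq_of_lt_left, hprod, hx]
    · norm_cast
      ring
    rw [hprod, v.map_mul, hy]
    refine lt_of_lt_of_le ?_ (add_le_add_right (hom_le h.lines hmin hg) _)
    norm_cast
    omega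

theorem caseC (H : Ctx ℓ a b e p c u v) {n s : ℕ} (hs : 0 < s)
    (hx : v (lin (ℓ 0)) = n) (hy : v (lin (ℓ 1)) = n) (hz : v (lin (ℓ 2)) = (n + s : ℕ)) :
    Goal v (idealOf (points a b e p)) c u := by
  have h := H.h
  obtain ⟨s₀, δ, hδ, hprod⟩ := exists_special H.hv h.lines 2 0 1 (by decide) (by decide)
    (by decide) h.four (fun s => row_ne (frC_ne h s) 1) hx hy
  obtain ⟨g, hg, hg'⟩ := f6_mem h
  have hlt : (n : ℕ∞) < v (lin (ℓ 2)) := by
    rw [hz]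
    exact_mod_cast (by omega)
  have hr := cr_val1 (q := p) hlt hx (h.one 2)
  have hyq : ℓ 1 ⬝ᵥ e s₀ ≠ 0 := (h.four.1 s₀).2 1 (by decide)
  have hp := frame h (q := e s₀) (by simp [points])
  have hmin : ∀ i, (n : ℕ∞) ≤ v (lin (ℓ i)) := by
    intro i
    fin_cases i
    · exact hx.ge
    · exact hy.ge
    · exact hlt.le
  refine single H.hv H.hu (frC_ne h s₀) (κ := 2) hz hδ hy hs (by norm_num) ?_ ?_ ?_
    (f4_mem h (cr_self ℓ 2 0 p)) ?_ hg' ?_
  · refine cond_change H.hc h.lines (frC_ne h s₀) (trC_mul hyq) ?_ rfl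
      (H.mon (![1, 1, 1], 4) (by simp [weights]))
    intro i j _
    fin_cases i <;> fin_cases j <;> simp
  · refine cond_change (w := ![1, 1, 3]) (w' := ![2 + 1, 1, 1]) H.hc h.lines (frC_ne h s₀) (trC_mul hyq) ?_ rfl
      (H.mon (![1, 1, 3], 6) (by simp [weights]))
    intro i j hij
    fin_cases i <;> fin_cases j <;> simp [trC] at hij ⊢
  · exact cond_pt H.hc (frC_ne h s₀) hp.1 (h.four.1 s₀).1 (cr_self ℓ 0 1 _)
      (H.pt _ (by simp [points]))
  · rw [f4_val hx hy hz hr]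
    congr 1
    ring
  · intro hδs
    rw [v.map_mul, v.map_mul, v.map_add_eq_of_lt_left, hprod, hx, hy]
    · norm_cast
      ring
    rw [hprod, v.map_mul, hz]
    refine lt_of_lt_of_le ?_ (add_le_add_right (hom_le h.lines hmin hg) _)
    norm_cast
    omega

theorem mon_ineq {w : Fin 3 → ℕ} {N : ℕ} {f : S} (h : Cond c w N f) {m : Fin 3 →₀ ℕ}
    (hm : m ∈ f.support) :
    c * N < (w 0 : ℝ) * (m 0 + 1) + w 1 * (m 1 + 1) + w 2 * (m 2 + 1) := by
  have := h m hm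
  rwa [Fin.sum_univ_three] at this

theorem caseD (H : Ctx ℓ a b e p c u v) {n : ℕ}
    (hx : v (lin (ℓ 0)) = n) (hy : v (lin (ℓ 1)) = n) (hz : v (lin (ℓ 2)) = n) :
    Goal v (idealOf (points a b e p)) c u := by
  have h := H.h
  have hP := frP_ne h
  obtain ⟨x, hx'⟩ := fin_val H.hv (row_ne hP 0)
  obtain ⟨y, hy'⟩ := fin_val H.hv (row_ne hP 1)
  change v (lin (cr ℓ 0 2 p)) = x at hx'
  change v (lin (cr ℓ 1 2 p)) = y at hy'
  have hx1 : n ≤ x := by
    have := le_cr (q := p) hx.ge hz.ge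
    rw [hx'] at this
    exact Nat.cast_le.1 this
  have hy1 : n ≤ y := by
    have := le_cr (q := p) hy.ge hz.ge
    rw [hy'] at this
    exact Nat.cast_le.1 this
  have hE : ∀ m ∈ (sub (Matrix.of ℓ)⁻¹ u).support, 0 < n →
      c * (4 * n : ℝ) < (n : ℝ) * (m 0 + 1) + n * (m 1 + 1) + n * (m 2 + 1) := by
    intro m hm hn
    have h1 := mon_ineq (H.mon (![1, 1, 1], 4) (by simp [weights])) hm
    simp only [Matrix.cons_val_zero, Matrix.cons_val_one, Matrix.cons_val, Nat.cast_one,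
      Nat.cast_ofNat] at h1
    have hn' : (0 : ℝ) < n := by exact_mod_cast hn
    nlinarith
  have key : ∀ r : Fin 3 → ℂ, r ⬝ᵥ p = 0 → v (lin r) = n →
      Goal v (idealOf (points a b e p)) c u := by
    intro r hr hrn
    have hf := f4_val hx hy hz hrn
    rcases Nat.eq_zero_or_pos n with hn | hn
    · refine ⟨1, logDisc_pos H.hv, _, f4_mem h hr, ?_, ?_⟩
      · intro h0
        rw [h0, v.map_zero] at hf
        exact ENat.top_ne_natCast _ hf
      · rw [hf, hn]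
        simp
        positivity
    · refine finish H.hv H.hu h.lines hx hy hz (f4_mem h hr) hf fun m hm => ?_
      have := hE m hm hn
      push_cast
      linarith
  rcases hx1.eq_or_lt with h1 | h1
  · exact key _ (cr_self ℓ 0 2 p) (h1 ▸ hx')
  rcases hy1.eq_or_lt with h2 | h2
  · exact key _ (cr_self ℓ 1 2 p) (h2 ▸ hy')
  obtain ⟨s, rfl⟩ := Nat.exists_eq_add_of_lt h1
  obtain ⟨t, rfl⟩ := Nat.exists_eq_add_of_lt h2
  have hc1 : Cond c ![1, 1, 1] 4 (sub (frP ℓ p)⁻¹ u) := by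
    refine cond_change H.hc h.lines hP (trP_mul (h.one 2)) ?_ rfl
      (H.mon (![1, 1, 1], 4) (by simp [weights]))
    intro i j _
    fin_cases i <;> fin_cases j <;> simp
  have hc2 := cond_pt H.hc hP (frame h (q := p) (by simp [points])).1 (cr_self ℓ 0 2 _)
      (cr_self ℓ 1 2 _) (H.pt _ (by simp [points]))
  have har : ∀ m ∈ (sub (frP ℓ p)⁻¹ u).support, _ := fun m hm =>
    arP (i := (m 0 + 1 : ℝ)) (j := (m 1 + 1 : ℝ)) (k := (m 2 + 1 : ℝ)) (e := n)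
    (s := (s + 1 : ℝ)) (t := (t + 1 : ℝ)) (by positivity) (by positivity) (by positivity)
    (by positivity) (by positivity)
    (by
      have h3 := mon_ineq hc1 hm
      simp only [Matrix.cons_val_zero, Matrix.cons_val_one, Matrix.cons_val, Nat.cast_one,
        Nat.cast_ofNat] at h3
      linarith) (c := c)
    (by
      have h3 := mon_ineq hc2 hm
      simp only [Matrix.cons_val_zero, Matrix.cons_val_one, Matrix.cons_val, Nat.cast_one,
        Nat.cast_zero] at h3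
      linarith)
  rcases le_total s t with hst | hst
  · refine finish H.hv H.hu hP hx' hy' hz (f4_mem h (cr_self ℓ 0 2 p)) (f4_val hx hy hz hx')
      fun m hm => ?_
    have := (har m hm).1 (by
      have : (s : ℝ) ≤ t := by exact_mod_cast hst
      linarith)
    push_cast
    linarith
  · refine finish H.hv H.hu hP hx' hy' hz (f4_mem h (cr_self ℓ 1 2 p)) (f4_val hx hy hz hy')
      fun m hm => ?_
    have := (har m hm).2 (by
      have : (t : ℝ) ≤ s := by exact_mod_cast hst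
      linarith)
    push_cast
    linarith

theorem prod_const {N : ℕ} {q : Fin N → Fin 3 → ℂ} {i j : Fin 3} {n : ℕ}
    (hq : ∀ s, v (lin (cr ℓ i j (q s))) = n) :
    v (∏ s, lin (cr ℓ i j (q s))) = (N * n : ℕ) := by
  rw [prod_val, Finset.sum_congr rfl (fun s _ => hq s), Finset.sum_const, Finset.card_univ,
    Fintype.card_fin, nsmul_eq_mul]
  norm_cast

theorem caseA1 (H : Ctx ℓ a b e p c u v) {n s t : ℕ} (hs : 0 < s) (ht : 0 < t)
    (hx : v (lin (ℓ 0)) = (n + s : ℕ)) (hy : v (lin (ℓ 1)) = (n + t : ℕ))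
    (hz : v (lin (ℓ 2)) = n) :
    Goal v (idealOf (points a b e p)) c u := by
  have h := H.h
  have hx' : (n : ℕ∞) < v (lin (ℓ 0)) := by
    rw [hx]
    exact_mod_cast (by omega)
  have hy' : (n : ℕ∞) < v (lin (ℓ 1)) := by
    rw [hy]
    exact_mod_cast (by omega)
  have hmin : ∀ i, (n : ℕ∞) ≤ v (lin (ℓ i)) := by
    intro i
    fin_cases i
    · exact hx'.le
    · exact hy'.le
    · exact hz.ge
  have har : ∀ m ∈ (sub (Matrix.of ℓ)⁻¹ u).support, _ := fun m hm =>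
    arA1 (i := (m 0 + 1 : ℝ)) (j := (m 1 + 1 : ℝ)) (k := (m 2 + 1 : ℝ)) (e := n) (c := c)
    (s := (s : ℝ)) (t := (t : ℝ)) (by positivity) (by positivity) (by positivity)
    (by exact_mod_cast hs) (by exact_mod_cast ht)
    (by
      have h3 := mon_ineq (H.mon (![1, 1, 1], 4) (by simp [weights])) hm
      simp only [Matrix.cons_val_zero, Matrix.cons_val_one, Matrix.cons_val, Nat.cast_one,
        Nat.cast_ofNat] at h3
      linarith)
    (by
      have h3 := mon_ineq (H.mon (![7, 1, 1], 10) (by simp [weights])) hm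
      simp only [Matrix.cons_val_zero, Matrix.cons_val_one, Matrix.cons_val, Nat.cast_one,
        Nat.cast_ofNat] at h3
      linarith)
    (by
      have h3 := mon_ineq (H.mon (![1, 5, 1], 8) (by simp [weights])) hm
      simp only [Matrix.cons_val_zero, Matrix.cons_val_one, Matrix.cons_val, Nat.cast_one,
        Nat.cast_ofNat] at h3
      linarith)
    (by
      have h3 := mon_ineq (H.mon (![3, 5, 1], 10) (by simp [weights])) hm
      simp only [Matrix.cons_val_zero, Matrix.cons_val_one, Matrix.cons_val, Nat.cast_one,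
        Nat.cast_ofNat] at h3
      linarith)
  by_cases h1 : (t : ℝ) ≤ 4 * n ∧ (s + t : ℝ) ≤ 6 * n
  · have hr := cr_val1 (q := p) hx' hz (h.one 0)
    refine finish H.hv H.hu h.lines hx hy hz (f4_mem h (cr_self ℓ 0 2 p)) (f4_val hx hy hz hr)
      fun m hm => ?_
    have := (har m hm).1 h1
    push_cast
    linarith
  by_cases h3 : (4 * n : ℝ) ≤ t ∧ (s : ℝ) ≤ 2 * n
  · obtain ⟨g, hg, hg'⟩ := f8_mem h
    have hprod : v (∏ s, lin (cr ℓ 0 2 (b s))) = (7 * n : ℕ) :=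
      prod_const fun s => cr_val1 hx' hz ((h.seven.1 s).2 0 (by decide))
    have hf : v (lin (ℓ 0) * (∏ s, lin (cr ℓ 0 2 (b s)) + lin (ℓ 1) * g)) =
        (8 * n + s : ℕ) := by
      rw [v.map_mul, v.map_add_eq_of_lt_left, hprod, hx]
      · norm_cast
        ring
      rw [hprod, v.map_mul, hy]
      refine lt_of_lt_of_le ?_ (add_le_add_right (hom_le h.lines hmin hg) _)
      norm_cast
      omega
    refine finish H.hv H.hu h.lines hx hy hz hg' hf fun m hm => ?_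
    have := (har m hm).2.1 h3
    push_cast
    linarith
  · obtain ⟨g, hg, hg'⟩ := f10_mem h
    have hprod : v (∏ s, lin (cr ℓ 1 2 (a s))) = (10 * n : ℕ) :=
      prod_const fun s => cr_val1 hy' hz ((h.ten.1 s).2 1 (by decide))
    have hf : v (∏ s, lin (cr ℓ 1 2 (a s)) + lin (ℓ 0) * g) = (10 * n : ℕ) := by
      rw [v.map_add_eq_of_lt_left, hprod]
      rw [hprod, v.map_mul, hx]
      refine lt_of_lt_of_le ?_ (add_le_add_right (hom_le h.lines hmin hg) _)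
      norm_cast
      omega
    refine finish H.hv H.hu h.lines hx hy hz hg' hf fun m hm => ?_
    have := (har m hm).2.2 h1 h3
    push_cast
    linarith

theorem caseA2 (H : Ctx ℓ a b e p c u v) {n s t : ℕ} (hs : 0 < s) (ht : 0 < t)
    (hx : v (lin (ℓ 0)) = (n + s : ℕ)) (hy : v (lin (ℓ 1)) = n)
    (hz : v (lin (ℓ 2)) = (n + t : ℕ)) :
    Goal v (idealOf (points a b e p)) c u := by
  have h := H.h
  have hx' : (n : ℕ∞) < v (lin (ℓ 0)) := by
    rw [hx]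
    exact_mod_cast (by omega)
  have hz' : (n : ℕ∞) < v (lin (ℓ 2)) := by
    rw [hz]
    exact_mod_cast (by omega)
  have hmin : ∀ i, (n : ℕ∞) ≤ v (lin (ℓ i)) := by
    intro i
    fin_cases i
    · exact hx'.le
    · exact hy.ge
    · exact hz'.le
  have har : ∀ m ∈ (sub (Matrix.of ℓ)⁻¹ u).support, _ := fun m hm =>
    arA2 (i := (m 0 + 1 : ℝ)) (j := (m 1 + 1 : ℝ)) (k := (m 2 + 1 : ℝ)) (e := n) (c := c)
    (s := (s : ℝ)) (t := (t : ℝ)) (by positivity) (by positivity) (by positivity)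
    (by exact_mod_cast hs) (by exact_mod_cast ht)
    (by
      have h3 := mon_ineq (H.mon (![1, 1, 1], 4) (by simp [weights])) hm
      simp only [Matrix.cons_val_zero, Matrix.cons_val_one, Matrix.cons_val, Nat.cast_one,
        Nat.cast_ofNat] at h3
      linarith)
    (by
      have h3 := mon_ineq (H.mon (![7, 1, 1], 10) (by simp [weights])) hm
      simp only [Matrix.cons_val_zero, Matrix.cons_val_one, Matrix.cons_val, Nat.cast_one,
        Nat.cast_ofNat] at h3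
      linarith)
    (by
      have h3 := mon_ineq (H.mon (![1, 1, 3], 6) (by simp [weights])) hm
      simp only [Matrix.cons_val_zero, Matrix.cons_val_one, Matrix.cons_val, Nat.cast_one,
        Nat.cast_ofNat] at h3
      linarith)
    (by
      have h3 := mon_ineq (H.mon (![5, 1, 3], 10) (by simp [weights])) hm
      simp only [Matrix.cons_val_zero, Matrix.cons_val_one, Matrix.cons_val, Nat.cast_one,
        Nat.cast_ofNat] at h3
      linarith)
  by_cases h1 : (t : ℝ) ≤ 2 * n ∧ (s + t : ℝ) ≤ 6 * n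
  · have hr := cr_val1 (q := p) hx' hy (h.one 0)
    refine finish H.hv H.hu h.lines hx hy hz (f4_mem h (cr_self ℓ 0 1 p)) (f4_val hx hy hz hr)
      fun m hm => ?_
    have := (har m hm).1 h1
    push_cast
    linarith
  by_cases h3 : (2 * n : ℝ) ≤ t ∧ (s : ℝ) ≤ 4 * n
  · obtain ⟨g, hg, hg'⟩ := f6_mem h
    have hprod : v (∏ s, lin (cr ℓ 0 1 (e s))) = (4 * n : ℕ) :=
      prod_const fun s => cr_val1 hx' hy ((h.four.1 s).2 0 (by decide))
    have hf : v (lin (ℓ 0) * lin (ℓ 1) * (∏ s, lin (cr ℓ 0 1 (e s)) + lin (ℓ 2) * g)) =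
        (6 * n + s : ℕ) := by
      rw [v.map_mul, v.map_mul, v.map_add_eq_of_lt_left, hprod, hx, hy]
      · norm_cast
        ring
      rw [hprod, v.map_mul, hz]
      refine lt_of_lt_of_le ?_ (add_le_add_right (hom_le h.lines hmin hg) _)
      norm_cast
      omega
    refine finish H.hv H.hu h.lines hx hy hz hg' hf fun m hm => ?_
    have := (har m hm).2.1 h3
    push_cast
    linarith
  · obtain ⟨g, hg, hg'⟩ := f10_mem h
    have hprod : v (∏ s, lin (cr ℓ 1 2 (a s))) = (10 * n : ℕ) :=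
      prod_const fun s => cr_val2 hz' hy ((h.ten.1 s).2 2 (by decide))
    have hf : v (∏ s, lin (cr ℓ 1 2 (a s)) + lin (ℓ 0) * g) = (10 * n : ℕ) := by
      rw [v.map_add_eq_of_lt_left, hprod]
      rw [hprod, v.map_mul, hx]
      refine lt_of_lt_of_le ?_ (add_le_add_right (hom_le h.lines hmin hg) _)
      norm_cast
      omega
    refine finish H.hv H.hu h.lines hx hy hz hg' hf fun m hm => ?_
    have := (har m hm).2.2 h1 h3
    push_cast
    linarith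

theorem caseB1 (H : Ctx ℓ a b e p c u v) {n s t : ℕ} (hs : 0 < s) (ht : 0 < t)
    (hx : v (lin (ℓ 0)) = n) (hy : v (lin (ℓ 1)) = (n + s : ℕ))
    (hz : v (lin (ℓ 2)) = (n + t : ℕ)) :
    Goal v (idealOf (points a b e p)) c u := by
  have h := H.h
  have hy' : (n : ℕ∞) < v (lin (ℓ 1)) := by
    rw [hy]
    exact_mod_cast (by omega)
  have hz' : (n : ℕ∞) < v (lin (ℓ 2)) := by
    rw [hz]
    exact_mod_cast (by omega)
  have hmin : ∀ i, (n : ℕ∞) ≤ v (lin (ℓ i)) := by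
    intro i
    fin_cases i
    · exact hx.ge
    · exact hy'.le
    · exact hz'.le
  have har : ∀ m ∈ (sub (Matrix.of ℓ)⁻¹ u).support, _ := fun m hm =>
    arB1 (i := (m 0 + 1 : ℝ)) (j := (m 1 + 1 : ℝ)) (k := (m 2 + 1 : ℝ)) (e := n) (c := c)
    (s := (s : ℝ)) (t := (t : ℝ)) (by positivity) (by positivity) (by positivity)
    (by exact_mod_cast hs) (by exact_mod_cast ht)
    (by
      have h3 := mon_ineq (H.mon (![1, 1, 1], 4) (by simp [weights])) hm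
      simp only [Matrix.cons_val_zero, Matrix.cons_val_one, Matrix.cons_val, Nat.cast_one,
        Nat.cast_ofNat] at h3
      linarith)
    (by
      have h3 := mon_ineq (H.mon (![1, 5, 1], 8) (by simp [weights])) hm
      simp only [Matrix.cons_val_zero, Matrix.cons_val_one, Matrix.cons_val, Nat.cast_one,
        Nat.cast_ofNat] at h3
      linarith)
    (by
      have h3 := mon_ineq (H.mon (![1, 1, 3], 6) (by simp [weights])) hm
      simp only [Matrix.cons_val_zero, Matrix.cons_val_one, Matrix.cons_val, Nat.cast_one,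
        Nat.cast_ofNat] at h3
      linarith)
    (by
      have h3 := mon_ineq (H.mon (![1, 3, 3], 8) (by simp [weights])) hm
      simp only [Matrix.cons_val_zero, Matrix.cons_val_one, Matrix.cons_val, Nat.cast_one,
        Nat.cast_ofNat] at h3
      linarith)
  by_cases h1 : (t : ℝ) ≤ 2 * n ∧ (s + t : ℝ) ≤ 4 * n
  · have hr := cr_val1 (q := p) hy' hx (h.one 1)
    refine finish H.hv H.hu h.lines hx hy hz (f4_mem h (cr_self ℓ 1 0 p)) (f4_val hx hy hz hr)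
      fun m hm => ?_
    have := (har m hm).1 h1
    push_cast
    linarith
  by_cases h3 : (2 * n : ℝ) ≤ t ∧ (s : ℝ) ≤ 2 * n
  · obtain ⟨g, hg, hg'⟩ := f6_mem h
    have hprod : v (∏ s, lin (cr ℓ 0 1 (e s))) = (4 * n : ℕ) :=
      prod_const fun s => cr_val2 hy' hx ((h.four.1 s).2 1 (by decide))
    have hf : v (lin (ℓ 0) * lin (ℓ 1) * (∏ s, lin (cr ℓ 0 1 (e s)) + lin (ℓ 2) * g)) =
        (6 * n + s : ℕ) := by
      rw [v.map_mul, v.map_mul, v.map_add_eq_of_lt_left, hprod, hx, hy]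
      · norm_cast
        ring
      rw [hprod, v.map_mul, hz]
      refine lt_of_lt_of_le ?_ (add_le_add_right (hom_le h.lines hmin hg) _)
      norm_cast
      omega
    refine finish H.hv H.hu h.lines hx hy hz hg' hf fun m hm => ?_
    have := (har m hm).2.1 h3
    push_cast
    linarith
  · obtain ⟨g, hg, hg'⟩ := f8_mem h
    have hprod : v (∏ s, lin (cr ℓ 0 2 (b s))) = (7 * n : ℕ) :=
      prod_const fun s => cr_val2 hz' hx ((h.seven.1 s).2 2 (by decide))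
    have hf : v (lin (ℓ 0) * (∏ s, lin (cr ℓ 0 2 (b s)) + lin (ℓ 1) * g)) = (8 * n : ℕ) := by
      rw [v.map_mul, v.map_add_eq_of_lt_left, hprod, hx]
      · norm_cast
        ring
      rw [hprod, v.map_mul, hy]
      refine lt_of_lt_of_le ?_ (add_le_add_right (hom_le h.lines hmin hg) _)
      norm_cast
      omega
    refine finish H.hv H.hu h.lines hx hy hz hg' hf fun m hm => ?_
    have := (har m hm).2.2 h1 h3
    push_cast
    linarith

theorem goal (H : Ctx ℓ a b e p c u v) : Goal v (idealOf (points a b e p)) c u := by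
  obtain ⟨x, hx⟩ := fin_val H.hv (row_ne H.h.lines 0)
  obtain ⟨y, hy⟩ := fin_val H.hv (row_ne H.h.lines 1)
  obtain ⟨z, hz⟩ := fin_val H.hv (row_ne H.h.lines 2)
  change v (lin (ℓ 0)) = x at hx
  change v (lin (ℓ 1)) = y at hy
  change v (lin (ℓ 2)) = z at hz
  obtain ⟨n, hn⟩ : ∃ n, n = min x (min y z) := ⟨_, rfl⟩
  obtain ⟨s, rfl⟩ := Nat.exists_eq_add_of_le (show n ≤ x by omega)
  obtain ⟨t, rfl⟩ := Nat.exists_eq_add_of_le (show n ≤ y by omega)
  obtain ⟨r, rfl⟩ := Nat.exists_eq_add_of_le (show n ≤ z by omega)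
  have hn' : s = 0 ∨ t = 0 ∨ r = 0 := by omega
  rcases Nat.eq_zero_or_pos r with rfl | hr
  · rcases Nat.eq_zero_or_pos s with rfl | hs
    · rcases Nat.eq_zero_or_pos t with rfl | ht
      · exact caseD H hx hy hz
      · exact caseB2 H ht hx hy hz
    · rcases Nat.eq_zero_or_pos t with rfl | ht
      · exact caseA3 H hs hx hy hz
      · exact caseA1 H hs ht hx hy hz
  · rcases Nat.eq_zero_or_pos s with rfl | hs
    · rcases Nat.eq_zero_or_pos t with rfl | ht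
      · exact caseC H hr hx hy hz
      · exact caseB1 H ht hr hx hy hz
    · have ht : t = 0 := by omega
      subst ht
      exact caseA2 H hs hr hx hy hz

/-- The multiplier ideals. -/
theorem multiplier (h : IsGeneral ℓ a b e p) (hc : 0 < c) :
    multiplierIdeal (idealOf (points a b e p)) c =
      ↑(monomialIdeal ℓ c ⊓ ⨅ q ∈ points a b e p, idealOf {q} ^ (⌊c⌋₊ - 1)) := by
  ext u
  simp only [SetLike.mem_coe, Ideal.mem_inf, Submodule.mem_iInf]
  constructor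
  · exact upper h hc
  · rintro ⟨h1, h2⟩
    by_cases hu : u = 0
    · exact Or.inl hu
    · exact Or.inr fun v hv => goal ⟨h, hc.le, hu, hv, (mem_monomialIdeal h.lines hc.le u).1 h1, h2⟩

end Pool.Agent.T2H40.MI
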