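import Pool.Agent.T2H40.MI.Coord

/-! The monomials of the elements of the ideal of the points. -/

set_option autoImplicit false

namespace Pool.Agent.T2H40.MI

open MvPolynomial

theorem restrict_zero {F : S} {d : ℕ} (hF : F.IsHomogeneous d) (i j k : Fin 3)
    (hsum : ∀ m : Fin 3 →₀ ℕ, m 0 + m 1 + m 2 = m i + m j + m k)
    (hext : ∀ m m' : Fin 3 →₀ ℕ, m i = m' i → m j = m' j → m k = m' k → m = m')
    (hprod : ∀ (m : Fin 3 →₀ ℕ) (q : Fin 3 → ℂ),
      ∏ l, q l ^ m l = q i ^ m i * q j ^ m j * q k ^ m k)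
    {n : ℕ} (q : Fin n → Fin 3 → ℂ) (hqi : ∀ s, q s i = 0) (hqk : ∀ s, q s k ≠ 0)
    (hqj : ∀ s, q s j ≠ 0)
    (hτ : ∀ s s', s ≠ s' → q s j / q s k ≠ q s' j / q s' k)
    (hev : ∀ s, eval (q s) F = 0) (lo hi : ℕ) (hlo : ∀ m ∈ F.support, lo ≤ m j)
    (hhi : ∀ m ∈ F.support, hi ≤ m k) (hn : d + 1 ≤ n + lo + hi) :
    ∀ m ∈ F.support, 1 ≤ m i := by
  classical
  intro m hm
  by_contra hmi
  replace hmi : m i = 0 := by omega
  let A := F.support.filter fun m => m i = 0
  let P : Polynomial ℂ := ∑ m ∈ A, Polynomial.C (coeff m F) * Polynomial.X ^ (m j - lo)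
  have hmA : m ∈ A := Finset.mem_filter.2 ⟨hm, hmi⟩
  have hd : ∀ m ∈ A, m j + m k = d := by
    intro m hm
    have h1 := hom_deg hF (Finset.mem_filter.1 hm).1
    have h2 := hsum m
    have h3 := (Finset.mem_filter.1 hm).2
    omega
  have hroot : ∀ s, P.eval (q s j / q s k) = 0 := by
    intro s
    have h1 : eval (q s) F = P.eval (q s j / q s k) * (q s j ^ lo * q s k ^ (d - lo)) := by
      rw [eval_eq', ← Finset.sum_filter_add_sum_filter_not F.support (fun m => m i = 0)]
      rw [Finset.sum_eq_zero (s := F.support.filter fun m => ¬ m i = 0)]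
      · rw [add_zero, Polynomial.eval_finsetSum, Finset.sum_mul]
        refine Finset.sum_congr rfl fun n hn => ?_
        have hnj := hlo n (Finset.mem_filter.1 hn).1
        have hnd := hd n hn
        rw [hprod, (Finset.mem_filter.1 hn).2, pow_zero, one_mul, Polynomial.eval_mul,
          Polynomial.eval_C, Polynomial.eval_pow, Polynomial.eval_X]
        obtain ⟨t, ht⟩ := Nat.exists_eq_add_of_le hnj
        have e1 : n j - lo = t := by omega
        have e2 : d - lo = t + n k := by omega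
        rw [e1, e2, ht, div_pow, pow_add, pow_add]
        have := hqk s
        field_simp
      · intro n hn
        rw [hprod, hqi, zero_pow (Finset.mem_filter.1 hn).2]
        ring
    rw [hev s] at h1
    rcases mul_eq_zero.1 h1.symm with h2 | h2
    · exact h2
    · exact absurd h2 (mul_ne_zero (pow_ne_zero _ (hqj s)) (pow_ne_zero _ (hqk s)))
  have hdeg : P.natDegree < Fintype.card (Fin n) := by
    rw [Fintype.card_fin]
    have h1 : P.natDegree ≤ d - lo - hi := by
      refine Polynomial.natDegree_sum_le_of_forall_le _ _ fun n hn => ?_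
      refine le_trans (Polynomial.natDegree_C_mul_X_pow_le _ _) ?_
      have := hd n hn
      have := hhi n (Finset.mem_filter.1 hn).1
      have := hlo n (Finset.mem_filter.1 hn).1
      omega
    have := hd m hmA
    have := hhi m hm
    have := hlo m hm
    omega
  have hP := Polynomial.eq_zero_of_natDegree_lt_card_of_eval_eq_zero P
    (f := fun s => q s j / q s k) (fun s s' h => by
      by_contra hcon
      exact hτ s s' hcon h) hroot hdeg
  have h1 : P.coeff (m j - lo) = coeff m F := by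
    rw [Polynomial.finsetSum_coeff, Finset.sum_eq_single m]
    · rw [Polynomial.coeff_C_mul_X_pow, if_pos rfl]
    · intro n hn hnm
      rw [Polynomial.coeff_C_mul_X_pow, if_neg]
      intro h
      apply hnm
      have := hd m hmA
      have := hd n hn
      have := hlo m hm
      have := hlo n (Finset.mem_filter.1 hn).1
      have := (Finset.mem_filter.1 hn).2
      exact hext _ _ (by omega) (by omega) (by omega)
    · intro h
      exact absurd hmA h
  rw [hP, Polynomial.coeff_zero] at h1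
  exact (mem_support_iff.1 hm) h1.symm

/-- ratios of the coordinates of the points of a line are different -/
theorem ratio_ne {ℓ : Fin 3 → Fin 3 → ℂ} (hℓ : (Matrix.of ℓ).det ≠ 0) (i j k : Fin 3)
    (hji : j ≠ i) (hki : k ≠ i) (hall : ∀ l, l = i ∨ l = j ∨ l = k)
    {N : ℕ} {a : Fin N → Fin 3 → ℂ} (ha : OnLine ℓ i a) (s s' : Fin N) (hs : s ≠ s') :
    (ℓ j ⬝ᵥ a s) / (ℓ k ⬝ᵥ a s) ≠ (ℓ j ⬝ᵥ a s') / (ℓ k ⬝ᵥ a s') := by
  intro h
  have hk := (ha.1 s).2 k hki
  have hk' := (ha.1 s').2 k hki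
  have hj' := (ha.1 s').2 j hji
  rw [div_eq_div_iff hk hk'] at h
  apply ha.2 s s' hs ((ℓ k ⬝ᵥ a s) / (ℓ k ⬝ᵥ a s'))
  rw [← sub_eq_zero]
  apply Matrix.eq_zero_of_mulVec_eq_zero hℓ
  funext l
  show ℓ l ⬝ᵥ _ = 0
  rw [dotProduct_sub, dotProduct_smul, smul_eq_mul]
  rcases hall l with rfl | rfl | rfl
  · rw [(ha.1 s).1, (ha.1 s').1]
    ring
  · field_simp
    linear_combination h
  · field_simp
    ring

theorem support_comp {F : S} {m : Fin 3 →₀ ℕ} (hm : m ∈ F.support) :
    m ∈ (homogeneousComponent (m 0 + m 1 + m 2) F).support := by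
  rw [mem_support_iff, coeff_homogeneousComponent, if_pos]
  · exact mem_support_iff.1 hm
  · rw [Finsupp.degree_eq_sum, Fin.sum_univ_three]

variable {ℓ : Fin 3 → Fin 3 → ℂ} {a : Fin 10 → Fin 3 → ℂ} {b : Fin 7 → Fin 3 → ℂ}
  {e : Fin 4 → Fin 3 → ℂ} {p : Fin 3 → ℂ}

theorem comp_eval (h : IsGeneral ℓ a b e p) {f : S} (hf : f ∈ idealOf (points a b e p))
    {q : Fin 3 → ℂ} (hq : q ∈ points a b e p) (d : ℕ) :
    eval (fun i => ℓ i ⬝ᵥ q) (homogeneousComponent d (sub (Matrix.of ℓ)⁻¹ f)) = 0 := by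
  apply eval_component
  intro t
  have h1 := (mem_idealOf.1 hf) q hq t
  rw [← sub_inv h.lines f, eval_sub, Matrix.mulVec_smul] at h1
  exact h1

theorem supp_bounds (h : IsGeneral ℓ a b e p) {f : S} (hf : f ∈ idealOf (points a b e p))
    {m : Fin 3 →₀ ℕ} (hm : m ∈ (sub (Matrix.of ℓ)⁻¹ f).support) :
    4 ≤ m 0 + m 1 + m 2 ∧ (m 0 + m 1 + m 2 ≤ 9 → 1 ≤ m 0) ∧ (m 0 + m 1 + m 2 ≤ 7 → 1 ≤ m 1) ∧
      (m 0 + m 1 + m 2 ≤ 5 → 1 ≤ m 2) := by
  obtain ⟨F, hFdef⟩ : ∃ F, F = homogeneousComponent (m 0 + m 1 + m 2)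
    (sub (Matrix.of ℓ)⁻¹ f) := ⟨_, rfl⟩
  have hmF : m ∈ F.support := hFdef ▸ support_comp hm
  obtain ⟨d, hd⟩ : ∃ d, d = m 0 + m 1 + m 2 := ⟨_, rfl⟩
  rw [← hd] at hFdef ⊢
  have hF : F.IsHomogeneous d := hFdef ▸ homogeneousComponent_isHomogeneous _ _
  have hev : ∀ q ∈ points a b e p, eval (fun i => ℓ i ⬝ᵥ q) F = 0 := fun q hq => by
    rw [hFdef]
    exact comp_eval h hf hq d
  have H0 : d ≤ 9 → ∀ m ∈ F.support, 1 ≤ m 0 := by
    intro hd9
    refine restrict_zero hF 0 1 2 (fun m => rfl) ?_ ?_ (fun s i => ℓ i ⬝ᵥ a s)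
      (fun s => (h.ten.1 s).1) (fun s => (h.ten.1 s).2 2 (by decide))
      (fun s => (h.ten.1 s).2 1 (by decide))
      (fun s s' hs => ratio_ne h.lines 0 1 2 (by decide) (by decide) (by decide) h.ten s s' hs)
      (fun s => hev _ (by simp [points])) 0 0 (fun _ _ => Nat.zero_le _)
      (fun _ _ => Nat.zero_le _) (by omega)
    · intro m m' h0 h1 h2
      ext i
      fin_cases i <;> assumption
    · intro m q
      rw [Fin.prod_univ_three]
  have H1 : d ≤ 7 → ∀ m ∈ F.support, 1 ≤ m 1 := by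
    intro hd7
    refine restrict_zero hF 1 0 2 (fun m => by omega) ?_ ?_ (fun s i => ℓ i ⬝ᵥ b s)
      (fun s => (h.seven.1 s).1) (fun s => (h.seven.1 s).2 2 (by decide))
      (fun s => (h.seven.1 s).2 0 (by decide))
      (fun s s' hs => ratio_ne h.lines 1 0 2 (by decide) (by decide) (by decide) h.seven s s' hs)
      (fun s => hev _ (by simp [points])) 1 0 (H0 (by omega))
      (fun _ _ => Nat.zero_le _) (by omega)
    · intro m m' h0 h1 h2
      ext i
      fin_cases i <;> assumption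
    · intro m q
      rw [Fin.prod_univ_three]
      ring
  have H2 : d ≤ 5 → ∀ m ∈ F.support, 1 ≤ m 2 := by
    intro hd5
    refine restrict_zero hF 2 0 1 (fun m => by omega) ?_ ?_ (fun s i => ℓ i ⬝ᵥ e s)
      (fun s => (h.four.1 s).1) (fun s => (h.four.1 s).2 1 (by decide))
      (fun s => (h.four.1 s).2 0 (by decide))
      (fun s s' hs => ratio_ne h.lines 2 0 1 (by decide) (by decide) (by decide) h.four s s' hs)
      (fun s => hev _ (by simp [points])) 1 1 (H0 (by omega))
      (H1 (by omega)) (by omega)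
    · intro m m' h0 h1 h2
      ext i
      fin_cases i <;> assumption
    · intro m q
      rw [Fin.prod_univ_three]
      ring
  refine ⟨?_, fun hd' => H0 hd' m hmF, fun hd' => H1 hd' m hmF, fun hd' => H2 hd' m hmF⟩
  by_contra hcon
  push Not at hcon
  have g0 := H0 (by omega)
  have g1 := H1 (by omega)
  have g2 := H2 (by omega)
  have h3 : ∀ n ∈ F.support, n ≠ m → coeff n F * ∏ i, (ℓ i ⬝ᵥ p) ^ n i = 0 := by
    intro n hn hnm
    exfalso
    apply hnm
    have := g0 n hn
    have := g1 n hn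
    have := g2 n hn
    have := g0 m hmF
    have := g1 m hmF
    have := g2 m hmF
    have := hom_deg hF hn
    ext i
    fin_cases i <;> simp only [Fin.zero_eta, Fin.mk_one, Fin.reduceFinMk] <;> omega
  have h4 := hev p (by simp [points])
  rw [eval_eq', Finset.sum_eq_single m h3] at h4
  · rcases mul_eq_zero.1 h4 with h5 | h5
    · exact (mem_support_iff.1 hmF) h5
    · obtain ⟨i, _, hi⟩ := Finset.prod_eq_zero_iff.1 h5
      exact pow_ne_zero _ (h.one i) hi
  · intro h
    exact absurd hmF h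

/-- the seven valuations of the ideal -/
theorem weights_le (h : IsGeneral ℓ a b e p) {f : S} (hf : f ∈ idealOf (points a b e p))
    {wN : (Fin 3 → ℕ) × ℕ} (hwN : wN ∈ weights) :
    (wN.2 : ℕ∞) ≤ wv wN.1 (sub (Matrix.of ℓ)⁻¹ f) := by
  rw [le_wv]
  intro m hm
  obtain ⟨h1, h2, h3, h4⟩ := supp_bounds h hf hm
  simp only [weights, List.mem_cons, List.not_mem_nil, or_false] at hwN
  rcases hwN with rfl | rfl | rfl | rfl | rfl | rfl | rfl <;>
    simp only [wt, Matrix.cons_val_zero, Matrix.cons_val_one, Matrix.cons_val] <;> omega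

end Pool.Agent.T2H40.MI
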