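import Pool.Agent.T2H40.MI.Supp

/-! The monomial valuations are divisorial, and one inclusion. -/

set_option autoImplicit false

namespace Pool.Agent.T2H40.MI

open MvPolynomial

theorem aeval_mono (E : Fin 3 → (Fin 3 →₀ ℕ)) (H : S) :
    aeval (fun i => (monomial (E i) (1 : ℂ) : S)) H =
      ∑ m ∈ H.support, monomial (m 0 • E 0 + m 1 • E 1 + m 2 • E 2) (coeff m H) := by
  rw [aeval_def, eval₂_eq']
  refine Finset.sum_congr rfl fun m _ => ?_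
  rw [Fin.prod_univ_three, monomial_pow, monomial_pow, monomial_pow, monomial_mul, monomial_mul,
    algebraMap_eq, C_mul_monomial]
  simp

theorem wt_smul (w : Fin 3 → ℕ) (n : ℕ) (m : Fin 3 →₀ ℕ) : wt w (n • m) = n * wt w m := by
  simp only [wt, Finsupp.smul_apply, smul_eq_mul]
  ring

theorem residue_aux {w : Fin 3 → ℕ} {W : ℕ} {E : Fin 3 → (Fin 3 →₀ ℕ)} (hE : ∀ i, wt w (E i) = W)
    (hinj : ∀ m n : Fin 3 →₀ ℕ, m 0 • E 0 + m 1 • E 1 + m 2 • E 2 =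
      n 0 • E 0 + n 1 • E 1 + n 2 • E 2 → m = n) {D : ℕ} {H : S} (hH : H.IsHomogeneous D)
    (hH0 : H ≠ 0) :
    wv w (aeval (fun i => (monomial (E i) (1 : ℂ) : S)) H) = (D * W : ℕ) := by
  classical
  have hwt : ∀ m ∈ H.support, wt w (m 0 • E 0 + m 1 • E 1 + m 2 • E 2) = D * W := by
    intro m hm
    rw [wt_add, wt_add, wt_smul, wt_smul, wt_smul, hE, hE, hE, ← hom_deg hH hm]
    ring
  apply le_antisymm
  · obtain ⟨m, hm⟩ := support_nonempty.2 hH0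
    have h1 : m 0 • E 0 + m 1 • E 1 + m 2 • E 2 ∈
        (aeval (fun i => (monomial (E i) (1 : ℂ) : S)) H).support := by
      rw [mem_support_iff, aeval_mono, coeff_sum, Finset.sum_eq_single m]
      · rw [coeff_monomial, if_pos rfl]
        exact mem_support_iff.1 hm
      · intro n _ hnm
        rw [coeff_monomial, if_neg]
        intro h
        exact hnm (hinj _ _ h)
      · intro h
        exact absurd hm h
    obtain ⟨n, hn⟩ := ENat.ne_top_iff_exists.1 (wv_ne_top (w := w)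
      (f := aeval (fun i => (monomial (E i) (1 : ℂ) : S)) H) (fun h => by
        rw [h] at h1
        simp at h1))
    rw [← hn]
    have h2 := le_wv.1 hn.le _ h1
    rw [hwt m hm] at h2
    exact Nat.cast_le.2 h2
  · rw [aeval_mono]
    refine (wv w).map_le_sum fun m hm => ?_
    rw [wv_monomial _ (mem_support_iff.1 hm), hwt m hm]

theorem wv_X (w : Fin 3 → ℕ) (i : Fin 3) : wv w (X i) = w i := by
  have h := wv_monomial (w := w) (Finsupp.single i 1) (one_ne_zero (α := ℂ))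
  rw [show (X i : S) = monomial (Finsupp.single i 1) 1 from rfl, h]
  fin_cases i <;> simp [wt]

theorem divisorial {w : Fin 3 → ℕ} {B : Matrix (Fin 3) (Fin 3) ℂ} (hB : B.det ≠ 0) {W : ℕ}
    (hw : w 0 ≠ 0)
    {E : Fin 3 → (Fin 3 →₀ ℕ)} (hE : ∀ i, wt w (E i) = W)
    (hinj : ∀ m n : Fin 3 →₀ ℕ, m 0 • E 0 + m 1 • E 1 + m 2 • E 2 =
      n 0 • E 0 + n 1 • E 1 + n 2 • E 2 → m = n) :
    IsDivisorial ((wv w).comap (sub B⁻¹ : S →+* S)) where
  finite f hf := wv_ne_top (inv_ne hB hf)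
  nontrivial := by
    have h1 : ∀ f, ((wv w).comap (sub B⁻¹ : S →+* S)) f = wv w (sub B⁻¹ f) := fun f => rfl
    refine ⟨lin (B 0), ?_, ?_⟩
    · intro h0
      have := inv_lin hB 0
      rw [h0, map_zero] at this
      exact X_ne_zero _ this.symm
    · rw [h1, inv_lin hB, wv_X]
      exact_mod_cast hw
  residue := by
    refine ⟨sub B (monomial (E 0) 1), sub B (monomial (E 1) 1), sub B (monomial (E 2) 1), ?_, ?_⟩
    · intro h0
      have := inv_sub hB (monomial (E 0) 1)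
      rw [h0, map_zero] at this
      exact one_ne_zero (monomial_eq_zero.1 this.symm)
    · intro D H hH hH0
      have h1 : ∀ f, ((wv w).comap (sub B⁻¹ : S →+* S)) f = wv w (sub B⁻¹ f) := fun f => rfl
      have h2 : sub B⁻¹ (aeval ![sub B (monomial (E 0) 1), sub B (monomial (E 1) 1),
          sub B (monomial (E 2) 1)] H) = aeval (fun i => (monomial (E i) (1 : ℂ) : S)) H := by
        rw [← AlgHom.comp_apply, comp_aeval]
        congr 2
        funext i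
        fin_cases i <;> simp [inv_sub hB]
      rw [h1, h1, h2, residue_aux hE hinj hH hH0, inv_sub hB, wv_monomial _ one_ne_zero, hE]
      simp

theorem divisorial_pos {w : Fin 3 → ℕ} {B : Matrix (Fin 3) (Fin 3) ℂ} (hB : B.det ≠ 0)
    (hw : ∀ i, 0 < w i) : IsDivisorial ((wv w).comap (sub B⁻¹ : S →+* S)) := by
  have h0 := hw 0
  have h1 := hw 1
  have h2 := hw 2
  refine divisorial hB h0.ne' (W := w 0 * w 1 * w 2)
    (E := ![Finsupp.single 0 (w 1 * w 2), Finsupp.single 1 (w 0 * w 2),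
      Finsupp.single 2 (w 0 * w 1)]) ?_ ?_
  · intro i
    fin_cases i <;> simp [wt] <;> ring
  · intro m n h
    ext i
    have h3 := DFunLike.congr_fun h i
    fin_cases i <;> simp at h3 <;> simp <;> omega

theorem divisorial_pt {B : Matrix (Fin 3) (Fin 3) ℂ} (hB : B.det ≠ 0) :
    IsDivisorial ((wv ![1, 1, 0]).comap (sub B⁻¹ : S →+* S)) := by
  refine divisorial hB (by simp) (W := 1)
    (E := ![Finsupp.single 0 1, Finsupp.single 1 1,
      Finsupp.single 0 1 + Finsupp.single 2 1]) ?_ ?_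
  · intro i
    fin_cases i <;> simp [wt]
  · intro m n h
    have h0 := DFunLike.congr_fun h 0
    have h1 := DFunLike.congr_fun h 1
    have h2 := DFunLike.congr_fun h 2
    simp at h0 h1 h2
    ext i
    fin_cases i <;> simp only [Fin.zero_eta, Fin.mk_one, Fin.reduceFinMk] <;> omega

theorem comap_val (w : Fin 3 → ℕ) (B : Matrix (Fin 3) (Fin 3) ℂ) (f : S) :
    ((wv w).comap (sub B : S →+* S)) f = wv w (sub B f) := rfl

theorem cond_of_mem {I : Ideal S} {c : ℝ} (hc : 0 < c) {u : S} (hu : u ∈ multiplierIdeal I c)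
    {w : Fin 3 → ℕ} {M : Matrix (Fin 3) (Fin 3) ℂ} (hM : M.det ≠ 0)
    (hdiv : IsDivisorial ((wv w).comap (sub M⁻¹ : S →+* S))) {N : ℕ}
    (hN : ∀ f ∈ I, (N : ℕ∞) ≤ wv w (sub M⁻¹ f)) : Cond c w N (sub M⁻¹ u) := by
  rcases hu with rfl | hu
  · intro m hm
    simp at hm
  obtain ⟨A, hA, f, hf, hf0, hlt⟩ := hu _ hdiv
  have h1 := logDisc_upper (det_inv_ne hM) (fun f hf => inv_ne hM hf) hA
  intro m hm
  have hu0 : u ≠ 0 := by
    rintro rfl
    simp at hm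
  rw [comap_val, comap_val] at hlt
  obtain ⟨x, hx⟩ := ENat.ne_top_iff_exists.1 (wv_ne_top (w := w) (inv_ne hM hf0))
  obtain ⟨y, hy⟩ := ENat.ne_top_iff_exists.1 (wv_ne_top (w := w) (inv_ne hM hu0))
  have h2 := hN f hf
  rw [← hx] at h2
  have h3 : N ≤ x := Nat.cast_le.1 h2
  have h4 := le_wv.1 hy.le m hm
  rw [← hx, ← hy, ENat.toNat_coe, ENat.toNat_coe] at hlt
  rw [sum_wt]
  have h5 : c * N ≤ c * x := mul_le_mul_of_nonneg_left (by exact_mod_cast h3) hc.le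
  have h6 : (y : ℝ) + A ≤ ((wt w m + (w 0 + w 1 + w 2) : ℕ) : ℝ) := by exact_mod_cast (by omega)
  linarith

/-- the linear form of the pencil of `ℓ i`, `ℓ j` which vanishes at `q` -/
def cr (ℓ : Fin 3 → Fin 3 → ℂ) (i j : Fin 3) (q : Fin 3 → ℂ) : Fin 3 → ℂ :=
  (ℓ j ⬝ᵥ q) • ℓ i - (ℓ i ⬝ᵥ q) • ℓ j

theorem cr_dot (ℓ : Fin 3 → Fin 3 → ℂ) (i j : Fin 3) (q r : Fin 3 → ℂ) :
    cr ℓ i j q ⬝ᵥ r = (ℓ j ⬝ᵥ q) * (ℓ i ⬝ᵥ r) - (ℓ i ⬝ᵥ q) * (ℓ j ⬝ᵥ r) := by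
  rw [cr, sub_dotProduct, smul_dotProduct, smul_dotProduct, smul_eq_mul, smul_eq_mul]

theorem cr_self (ℓ : Fin 3 → Fin 3 → ℂ) (i j : Fin 3) (q : Fin 3 → ℂ) : cr ℓ i j q ⬝ᵥ q = 0 := by
  rw [cr_dot]
  ring

/-- frame at a point of the first line -/
def frA (ℓ : Fin 3 → Fin 3 → ℂ) (q : Fin 3 → ℂ) : Matrix (Fin 3) (Fin 3) ℂ :=
  Matrix.of ![ℓ 0, cr ℓ 1 2 q, ℓ 2]

/-- frame at a point of the second line -/
def frB (ℓ : Fin 3 → Fin 3 → ℂ) (q : Fin 3 → ℂ) : Matrix (Fin 3) (Fin 3) ℂ :=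
  Matrix.of ![ℓ 1, cr ℓ 0 2 q, ℓ 2]

/-- frame at a point of the third line -/
def frC (ℓ : Fin 3 → Fin 3 → ℂ) (q : Fin 3 → ℂ) : Matrix (Fin 3) (Fin 3) ℂ :=
  Matrix.of ![ℓ 2, cr ℓ 0 1 q, ℓ 1]

/-- frame at the last point -/
def frP (ℓ : Fin 3 → Fin 3 → ℂ) (q : Fin 3 → ℂ) : Matrix (Fin 3) (Fin 3) ℂ :=
  Matrix.of ![cr ℓ 0 2 q, cr ℓ 1 2 q, ℓ 2]

theorem frA_det (ℓ : Fin 3 → Fin 3 → ℂ) (q : Fin 3 → ℂ) :
    (frA ℓ q).det = (ℓ 2 ⬝ᵥ q) * (Matrix.of ℓ).det := by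
  simp [frA, Matrix.det_fin_three, cr]
  ring

theorem frB_det (ℓ : Fin 3 → Fin 3 → ℂ) (q : Fin 3 → ℂ) :
    (frB ℓ q).det = -(ℓ 2 ⬝ᵥ q) * (Matrix.of ℓ).det := by
  simp [frB, Matrix.det_fin_three, cr]
  ring

theorem frC_det (ℓ : Fin 3 → Fin 3 → ℂ) (q : Fin 3 → ℂ) :
    (frC ℓ q).det = (ℓ 1 ⬝ᵥ q) * (Matrix.of ℓ).det := by
  simp [frC, Matrix.det_fin_three, cr]
  ring

theorem frP_det (ℓ : Fin 3 → Fin 3 → ℂ) (q : Fin 3 → ℂ) :
    (frP ℓ q).det = (ℓ 2 ⬝ᵥ q) ^ 2 * (Matrix.of ℓ).det := by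
  simp [frP, Matrix.det_fin_three, cr]
  ring

variable {ℓ : Fin 3 → Fin 3 → ℂ} {a : Fin 10 → Fin 3 → ℂ} {b : Fin 7 → Fin 3 → ℂ}
  {e : Fin 4 → Fin 3 → ℂ} {p : Fin 3 → ℂ}

theorem frA_ne (h : IsGeneral ℓ a b e p) (s : Fin 10) : (frA ℓ (a s)).det ≠ 0 := by
  rw [frA_det]
  exact mul_ne_zero ((h.ten.1 s).2 2 (by decide)) h.lines

theorem frB_ne (h : IsGeneral ℓ a b e p) (s : Fin 7) : (frB ℓ (b s)).det ≠ 0 := by
  rw [frB_det]
  exact mul_ne_zero (neg_ne_zero.2 ((h.seven.1 s).2 2 (by decide))) h.lines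

theorem frC_ne (h : IsGeneral ℓ a b e p) (s : Fin 4) : (frC ℓ (e s)).det ≠ 0 := by
  rw [frC_det]
  exact mul_ne_zero ((h.four.1 s).2 1 (by decide)) h.lines

theorem frP_ne (h : IsGeneral ℓ a b e p) : (frP ℓ p).det ≠ 0 := by
  rw [frP_det]
  exact mul_ne_zero (pow_ne_zero _ (h.one 2)) h.lines

theorem frame (h : IsGeneral ℓ a b e p) {q : Fin 3 → ℂ} (hq : q ∈ points a b e p) :
    q ≠ 0 ∧ ∃ M : Matrix (Fin 3) (Fin 3) ℂ, M.det ≠ 0 ∧ M 0 ⬝ᵥ q = 0 ∧ M 1 ⬝ᵥ q = 0 := by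
  rcases hq with ((⟨s, rfl⟩ | ⟨s, rfl⟩) | ⟨s, rfl⟩) | rfl
  · refine ⟨?_, _, frA_ne h s, (h.ten.1 s).1, cr_self ℓ 1 2 _⟩
    intro h0
    have := (h.ten.1 s).2 1 (by decide)
    rw [h0, dotProduct_zero] at this
    exact this rfl
  · refine ⟨?_, _, frB_ne h s, (h.seven.1 s).1, cr_self ℓ 0 2 _⟩
    intro h0
    have := (h.seven.1 s).2 0 (by decide)
    rw [h0, dotProduct_zero] at this
    exact this rfl
  · refine ⟨?_, _, frC_ne h s, (h.four.1 s).1, cr_self ℓ 0 1 _⟩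
    intro h0
    have := (h.four.1 s).2 0 (by decide)
    rw [h0, dotProduct_zero] at this
    exact this rfl
  · refine ⟨?_, _, frP_ne h, cr_self ℓ 0 2 _, cr_self ℓ 1 2 _⟩
    intro h0
    have := h.one 0
    rw [h0, dotProduct_zero] at this
    exact this rfl

theorem weights_pos {wN : (Fin 3 → ℕ) × ℕ} (hwN : wN ∈ weights) (i : Fin 3) : 0 < wN.1 i := by
  simp only [weights, List.mem_cons, List.not_mem_nil, or_false] at hwN
  rcases hwN with rfl | rfl | rfl | rfl | rfl | rfl | rfl <;> fin_cases i <;> simp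

theorem idealOf_mono {Z Z' : Set (Fin 3 → ℂ)} (h : Z ⊆ Z') : idealOf Z' ≤ idealOf Z :=
  fun _ hf => mem_idealOf.2 fun q hq => mem_idealOf.1 hf q (h hq)

theorem upper (h : IsGeneral ℓ a b e p) {c : ℝ} (hc : 0 < c) {u : S}
    (hu : u ∈ multiplierIdeal (idealOf (points a b e p)) c) :
    u ∈ monomialIdeal ℓ c ∧ ∀ q ∈ points a b e p, u ∈ idealOf {q} ^ (⌊c⌋₊ - 1) := by
  refine ⟨(mem_monomialIdeal h.lines hc.le u).2 fun wN hwN => ?_, fun q hq => ?_⟩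
  · exact cond_of_mem hc hu h.lines (divisorial_pos h.lines (weights_pos hwN))
      fun f hf => weights_le h hf hwN
  · obtain ⟨hq0, M, hM, h0, h1⟩ := frame h hq
    have h2 := cond_of_mem hc hu hM (divisorial_pt hM) (N := 1) fun f hf =>
      pt_one hM hq0 h0 h1 (idealOf_mono (Set.singleton_subset_iff.2 hq) hf)
    apply mem_pow hM h0 h1
    rw [cond_iff hc.le] at h2
    refine le_trans (Nat.cast_le.2 ?_) h2
    simp [bd]

end Pool.Agent.T2H40.MI
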