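import Mathlib

/-! Monomial valuations of the polynomial ring in three variables. -/

set_option autoImplicit false

namespace Pool.Agent.T2H40.MI

open MvPolynomial

/-- the polynomial ring -/
abbrev S := MvPolynomial (Fin 3) ℂ

/-- the weight of a monomial -/
def wt (w : Fin 3 → ℕ) (m : Fin 3 →₀ ℕ) : ℕ := w 0 * m 0 + w 1 * m 1 + w 2 * m 2

theorem weight_eq (w : Fin 3 → ℕ) (m : Fin 3 →₀ ℕ) : Finsupp.weight w m = wt w m := by
  rw [Finsupp.weight_apply, Finsupp.sum_fintype _ _ (fun i => by simp), Fin.sum_univ_three]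
  simp only [smul_eq_mul, wt]
  ring

theorem wt_add (w : Fin 3 → ℕ) (m n : Fin 3 →₀ ℕ) : wt w (m + n) = wt w m + wt w n := by
  simp only [wt, Finsupp.add_apply]
  ring

theorem order_mul (w : Fin 3 → ℕ) (f g : MvPowerSeries (Fin 3) ℂ) :
    MvPowerSeries.weightedOrder w (f * g) =
      MvPowerSeries.weightedOrder w f + MvPowerSeries.weightedOrder w g := by
  by_cases hf : f = 0
  · rw [hf, zero_mul, MvPowerSeries.weightedOrder_zero, top_add]
  by_cases hg : g = 0
  · rw [hg, mul_zero, MvPowerSeries.weightedOrder_zero, add_top]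
  have hf' := (MvPowerSeries.ne_zero_iff_weightedOrder_finite (w := w)).1 hf
  have hg' := (MvPowerSeries.ne_zero_iff_weightedOrder_finite (w := w)).1 hg
  apply le_antisymm
  · by_contra hcon
    push Not at hcon
    have h1 := MvPowerSeries.weightedHomogeneousComponent_mul_of_le_weightedOrder (w := w)
      (f := f) (g := g) hf'.le hg'.le
    have h2 := MvPowerSeries.weightedHomogeneousComponent_of_weightedOrder (w := w) hf'
    have h3 := MvPowerSeries.weightedHomogeneousComponent_of_weightedOrder (w := w) hg'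
    have h4 := mul_ne_zero h2 h3
    rw [← h1] at h4
    apply h4
    apply MvPowerSeries.weightedHomogeneousComponent_of_lt_weightedOrder_eq_zero
    push_cast
    rw [hf', hg']
    exact hcon
  · exact MvPowerSeries.le_weightedOrder_mul w

/-- the monomial valuation with the weights `w` -/
noncomputable def wv (w : Fin 3 → ℕ) : AddValuation S ℕ∞ :=
  AddValuation.of (fun f => MvPowerSeries.weightedOrder w (f : MvPowerSeries (Fin 3) ℂ))
    (by simp) (by simp [MvPowerSeries.weightedOrder_one])
    (fun x y => by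
      rw [MvPolynomial.coe_add]
      exact MvPowerSeries.min_weightedOrder_le_add w)
    (fun x y => by
      rw [MvPolynomial.coe_mul]
      exact order_mul w _ _)

theorem wv_apply (w : Fin 3 → ℕ) (f : S) :
    wv w f = MvPowerSeries.weightedOrder w (f : MvPowerSeries (Fin 3) ℂ) := rfl

theorem le_wv {w : Fin 3 → ℕ} {f : S} {n : ℕ} :
    (n : ℕ∞) ≤ wv w f ↔ ∀ m ∈ f.support, n ≤ wt w m := by
  rw [wv_apply]
  constructor
  · intro h m hm
    by_contra hcon
    push Not at hcon
    have h1 := MvPowerSeries.coeff_eq_zero_of_lt_weightedOrder (w := w) (d := m)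
      (f := (f : MvPowerSeries (Fin 3) ℂ)) (by
        rw [weight_eq]
        exact lt_of_lt_of_le (by exact_mod_cast hcon) h)
    rw [MvPolynomial.coeff_coe] at h1
    exact (MvPolynomial.mem_support_iff.1 hm) h1
  · intro h
    apply MvPowerSeries.nat_le_weightedOrder
    intro d hd
    rw [weight_eq] at hd
    rw [MvPolynomial.coeff_coe]
    by_contra hcon
    have := h d (MvPolynomial.mem_support_iff.2 hcon)
    omega

theorem wv_ne_top {w : Fin 3 → ℕ} {f : S} (hf : f ≠ 0) : wv w f ≠ ⊤ := by
  rw [wv_apply]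
  intro h
  rw [MvPowerSeries.weightedOrder_eq_top_iff] at h
  exact hf (by exact_mod_cast h)

theorem exists_wv {w : Fin 3 → ℕ} {f : S} (hf : f ≠ 0) :
    ∃ m ∈ f.support, wv w f = (wt w m : ℕ) := by
  have h1 : (f : MvPowerSeries (Fin 3) ℂ) ≠ 0 := by exact_mod_cast hf
  obtain ⟨d, hd, hd'⟩ := MvPowerSeries.exists_coeff_ne_zero_and_weightedOrder w
    ((MvPowerSeries.ne_zero_iff_weightedOrder_finite (w := w)).1 h1)
  rw [MvPolynomial.coeff_coe] at hd
  refine ⟨d, MvPolynomial.mem_support_iff.2 hd, ?_⟩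
  rw [wv_apply, ← hd', weight_eq]

theorem wv_monomial {w : Fin 3 → ℕ} (m : Fin 3 →₀ ℕ) {c : ℂ} (hc : c ≠ 0) :
    wv w (monomial m c) = (wt w m : ℕ) := by
  classical
  rw [wv_apply, MvPolynomial.coe_monomial, MvPowerSeries.weightedOrder_monomial_of_ne_zero w hc,
    weight_eq]

end Pool.Agent.T2H40.MI
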